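import Pool.Agent.Y158.SI.Units

/-!
# Numbers whose valuations outside `S` are divisible by `n` times the class number
-/

set_option autoImplicit false
set_option linter.unusedSectionVars false

namespace Pool.Agent.Y158.SI

open NumberField IsDedekindDomain WithZero Pool.Agent.Y158.KL

variable {K : Type*} [Field K] [NumberField K]

/-- the multiplicity of a prime in an ideal -/
noncomputable def cnt (v : HeightOneSpectrum (𝓞 K)) (I : Ideal (𝓞 K)) : ℕ :=
  open Classical in (Associates.mk v.asIdeal).count (Associates.mk I).factors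

lemma cnt_mul (v : HeightOneSpectrum (𝓞 K)) {I J : Ideal (𝓞 K)} (hI : I ≠ 0) (hJ : J ≠ 0) :
    cnt v (I * J) = cnt v I + cnt v J := by
  classical
  unfold cnt
  rw [← Associates.mk_mul_mk, Associates.count_mul (Associates.mk_ne_zero.2 hI)
    (Associates.mk_ne_zero.2 hJ) v.associates_irreducible]

lemma cnt_pow (v : HeightOneSpectrum (𝓞 K)) {I : Ideal (𝓞 K)} (hI : I ≠ 0) (n : ℕ) :
    cnt v (I ^ n) = n * cnt v I := by
  classical
  unfold cnt
  rw [Associates.mk_pow, Associates.count_pow (Associates.mk_ne_zero.2 hI)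
    v.associates_irreducible]

lemma cnt_zero {v : HeightOneSpectrum (𝓞 K)} {I : Ideal (𝓞 K)} (hI : I ≠ 0)
    (h : ¬ v.asIdeal ∣ I) : cnt v I = 0 := by
  classical
  by_contra hne
  exact h ((Associates.count_ne_zero_iff_dvd hI v.irreducible).1 hne)

lemma int_cnt (v : HeightOneSpectrum (𝓞 K)) {c : 𝓞 K} (hc : c ≠ 0) :
    v.intValuation c = exp (-(cnt v (Ideal.span {c}) : ℤ)) := by
  classical
  rw [v.intValuation_if_neg hc]
  rfl

lemma strip (S : Finset (HeightOneSpectrum (𝓞 K))) {I : Ideal (𝓞 K)} (hI : I ≠ 0) :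
    ∃ J I0 : Ideal (𝓞 K), I = J * I0 ∧ (∀ v ∈ S, ¬ v.asIdeal ∣ I0) ∧
      ∀ v ∉ S, ¬ v.asIdeal ∣ J := by
  classical
  induction S using Finset.induction_on with
  | empty =>
    refine ⟨1, I, (one_mul I).symm, fun v hv => absurd hv (Finset.notMem_empty v),
      fun v _ h => ?_⟩
    exact v.prime.not_isUnit (isUnit_of_dvd_one h)
  | insert v0 S hv0 ih =>
    obtain ⟨J, I0, hJI, h1, h2⟩ := ih
    have hI0 : I0 ≠ 0 := by
      rintro rfl
      rw [mul_zero] at hJI
      exact hI hJI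
    have hfin : FiniteMultiplicity v0.asIdeal I0 := FiniteMultiplicity.of_prime_left v0.prime hI0
    obtain ⟨I1, hI1, hnd⟩ := hfin.exists_eq_pow_mul_and_not_dvd
    refine ⟨J * v0.asIdeal ^ multiplicity v0.asIdeal I0, I1, ?_, ?_, ?_⟩
    · rw [mul_assoc, ← hI1, hJI]
    · intro v hv
      rcases Finset.mem_insert.1 hv with rfl | hv
      · exact hnd
      · intro h
        apply h1 v hv
        rw [hI1]
        exact h.mul_left _
    · intro v hv h
      rw [Finset.mem_insert, not_or] at hv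
      rcases v.prime.dvd_or_dvd h with h | h
      · exact h2 v hv.2 h
      · apply hv.1
        have h3 := v.prime.dvd_of_dvd_pow h
        have h4 : v0.asIdeal ≤ v.asIdeal := Ideal.le_of_dvd h3
        apply HeightOneSpectrum.ext
        exact (v0.isMaximal.eq_of_le v.isPrime.ne_top h4).symm

theorem split_int {S : Finset (HeightOneSpectrum (𝓞 K))} {n : ℕ} (hn : 0 < n) {c : 𝓞 K}
    (hc : c ≠ 0) (h : ∀ v ∉ S, ∃ τ : WithZero (Multiplicative ℤ),
      v.intValuation c = τ ^ (classNumber K * n)) :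
    ∃ t : 𝓞 K, t ≠ 0 ∧ ∀ v ∉ S, v.intValuation c = v.intValuation t ^ n := by
  classical
  have hspan : Ideal.span {c} ≠ 0 := by
    rw [Ne, Ideal.zero_eq_bot, Ideal.span_singleton_eq_bot]
    exact hc
  have hh : 0 < classNumber K := Fintype.card_pos
  obtain ⟨J, I0, hJI, h1, h2⟩ := strip S hspan
  have hJ0 : J ≠ 0 := by
    rintro rfl
    rw [zero_mul] at hJI
    exact hspan hJI
  have hI0 : I0 ≠ 0 := by
    rintro rfl
    rw [mul_zero] at hJI
    exact hspan hJI
  have hcI : ∀ v ∉ S, cnt v (Ideal.span {c}) = cnt v I0 := fun v hv => by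
    rw [hJI, cnt_mul v hJ0 hI0, cnt_zero hJ0 (h2 v hv), zero_add]
  have hcount : ∀ p : Associates (Ideal (𝓞 K)), Irreducible p →
      (classNumber K * n) ∣ p.count (Associates.mk I0).factors := by
    intro p hp
    obtain ⟨P, rfl⟩ := Associates.mk_surjective p
    have hP : Prime P := (Associates.irreducible_mk.1 hp).prime
    have hPp : P.IsPrime := Ideal.isPrime_of_prime hP
    let v : HeightOneSpectrum (𝓞 K) := ⟨P, hPp, hP.ne_zero⟩
    change (classNumber K * n) ∣ cnt v I0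
    by_cases hv : v ∈ S
    · rw [cnt_zero hI0 (h1 v hv)]
      exact dvd_zero _
    · obtain ⟨t, ht⟩ := h v hv
      rw [int_cnt v hc] at ht
      have ht0 : t ≠ 0 := by
        rintro rfl
        rw [zero_pow (Nat.mul_pos hh hn).ne'] at ht
        exact exp_ne_zero ht
      obtain ⟨m, rfl⟩ := exists_exp ht0
      rw [exp_pow, exp_inj, hcI v hv] at ht
      have h3 : ((classNumber K * n : ℕ) : ℤ) ∣ (cnt v I0 : ℤ) := ⟨-m, by linarith⟩
      exact_mod_cast h3
  obtain ⟨b, hb⟩ := Associates.is_pow_of_dvd_count (Associates.mk_ne_zero.2 hI0) hcount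
  obtain ⟨I1, rfl⟩ := Associates.mk_surjective b
  rw [← Associates.mk_pow, Associates.mk_eq_mk_iff_associated, associated_iff_eq] at hb
  have hI1 : I1 ≠ 0 := by
    rintro rfl
    rw [zero_pow (Nat.mul_pos hh hn).ne'] at hb
    exact hI0 hb
  have hI1' : I1 ∈ nonZeroDivisors (Ideal (𝓞 K)) := mem_nonZeroDivisors_iff_ne_zero.2 hI1
  have hcl : ClassGroup.mk0 (⟨I1, hI1'⟩ ^ classNumber K : nonZeroDivisors (Ideal (𝓞 K))) = 1 := by
    rw [map_pow]
    exact pow_card_eq_one
  rw [ClassGroup.mk0_eq_one_iff] at hcl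
  obtain ⟨t, ht⟩ := hcl
  change I1 ^ classNumber K = Ideal.span {t} at ht
  have ht0 : t ≠ 0 := by
    rintro rfl
    have h3 : I1 ^ classNumber K ≠ 0 := pow_ne_zero _ hI1
    apply h3
    rw [ht, Ideal.zero_eq_bot, Ideal.span_singleton_eq_bot]
  refine ⟨t, ht0, fun v hv => ?_⟩
  rw [int_cnt v hc, int_cnt v ht0, hcI v hv, hb, cnt_pow v hI1, ← ht, cnt_pow v hI1, exp_pow]
  congr 1
  push_cast
  ring

/-- Step 1 -/
theorem split_power {S : Finset (HeightOneSpectrum (𝓞 K))} {n : ℕ} (hn : 0 < n) {c : K}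
    (hc : c ≠ 0) (h : ∀ v ∉ S, ∃ τ : WithZero (Multiplicative ℤ),
      v.valuation K c = τ ^ (classNumber K * n)) :
    ∃ u t : K, IsSU S u ∧ t ≠ 0 ∧ c = u * t ^ n := by
  have hh : 0 < classNumber K := Fintype.card_pos
  have hhn : 0 < classNumber K * n := Nat.mul_pos hh hn
  obtain ⟨a, b, hb, rfl⟩ := IsFractionRing.div_surjective (A := 𝓞 K) c
  have hb0 : b ≠ 0 := nonZeroDivisors.ne_zero hb
  have hbK : algebraMap (𝓞 K) K b ≠ 0 :=
    (map_ne_zero_iff _ (FaithfulSMul.algebraMap_injective (𝓞 K) K)).2 hb0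
  have ha0 : a ≠ 0 := by
    rintro rfl
    rw [map_zero, zero_div] at hc
    exact hc rfl
  obtain ⟨t, ht0, ht⟩ := split_int (S := S) hn (c := a * b ^ (classNumber K * n - 1))
    (mul_ne_zero ha0 (pow_ne_zero _ hb0)) (by
      intro v hv
      obtain ⟨τ, hτ⟩ := h v hv
      refine ⟨τ * v.intValuation b, ?_⟩
      rw [map_div₀, v.valuation_of_algebraMap, v.valuation_of_algebraMap] at hτ
      have hvb : v.intValuation b ≠ 0 := v.intValuation_ne_zero b hb0
      rw [map_mul, map_pow, mul_pow, ← hτ]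
      obtain ⟨m, hm⟩ : ∃ m, classNumber K * n = m + 1 := ⟨classNumber K * n - 1, by omega⟩
      rw [hm, Nat.add_sub_cancel, pow_succ, div_mul_eq_mul_div, eq_div_iff hvb, mul_assoc])
  have htK : algebraMap (𝓞 K) K t ≠ 0 :=
    (map_ne_zero_iff _ (FaithfulSMul.algebraMap_injective (𝓞 K) K)).2 ht0
  obtain ⟨s, hs⟩ : ∃ s : K, s = algebraMap (𝓞 K) K t / algebraMap (𝓞 K) K b ^ classNumber K :=
    ⟨_, rfl⟩
  have hs0 : s ≠ 0 := by
    rw [hs]
    exact div_ne_zero htK (pow_ne_zero _ hbK)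
  refine ⟨algebraMap (𝓞 K) K a / algebraMap (𝓞 K) K b / s ^ n, s, ⟨div_ne_zero hc
    (pow_ne_zero _ hs0), fun v hv => ?_⟩, hs0, by rw [div_mul_cancel₀ _ (pow_ne_zero _ hs0)]⟩
  have h1 := ht v hv
  have hvb : v.intValuation b ≠ 0 := v.intValuation_ne_zero b hb0
  have hva : v.intValuation a ≠ 0 := v.intValuation_ne_zero a ha0
  rw [map_div₀, map_div₀, map_pow, hs, map_div₀, map_pow, v.valuation_of_algebraMap,
    v.valuation_of_algebraMap, v.valuation_of_algebraMap, div_pow, ← h1, map_mul, map_pow,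
    ← pow_mul]
  obtain ⟨m, hm⟩ : ∃ m, classNumber K * n = m + 1 := ⟨classNumber K * n - 1, by omega⟩
  rw [hm, Nat.add_sub_cancel, pow_succ]
  have h2 : v.intValuation b ^ m ≠ 0 := pow_ne_zero _ hvb
  rw [div_div_eq_mul_div, div_mul_eq_mul_div, div_div, div_eq_one_iff_eq
    (mul_ne_zero hvb (mul_ne_zero hva h2))]
  ac_rfl

end Pool.Agent.Y158.SI
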