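import Pool.Agent.Y158.SI.Main

/-!
# The main estimate for polynomials, and simultaneous approximation in several variables
-/

set_option autoImplicit false
set_option linter.unusedSectionVars false

namespace Pool.Agent.Y158.SI

open NumberField IsDedekindDomain WithZero Pool.Agent.TH954 Pool.Agent.Y158.KL

section

variable {K : Type*} [Field K] [NumberField K] {S : Finset (HeightOneSpectrum (𝓞 K))}

lemma Nt_zero (t : InfinitePlace K ⊕ S) : Nt S t 0 = 0 := by
  rcases t with w | v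
  · change w.1 0 ^ w.mult = 0
    rw [w.1.map_zero, zero_pow InfinitePlace.mult_ne_zero]
  · exact (av v.1).map_zero

lemma Nt_sum {ι : Type*} (t : InfinitePlace K ⊕ S) (s : Finset ι) (a : ι → K) {D : ℝ}
    (hD : 0 ≤ D) (h : ∀ m ∈ s, Nt S t (a m) ≤ D) : Nt S t (∑ m ∈ s, a m) ≤ 4 ^ s.card * D := by
  classical
  induction s using Finset.induction_on with
  | empty =>
    rw [Finset.sum_empty, Nt_zero, Finset.card_empty, pow_zero, one_mul]
    exact hD
  | insert m s hm ih =>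
    have h1 := ih fun m' hm' => h m' (Finset.mem_insert_of_mem hm')
    have h2 := h m (Finset.mem_insert_self m s)
    rw [Finset.sum_insert hm, Finset.card_insert_of_notMem hm]
    have h3 : (1 : ℝ) ≤ 4 ^ s.card := one_le_pow₀ (by norm_num)
    have h4 : max (Nt S t (a m)) (Nt S t (∑ m ∈ s, a m)) ≤ 4 ^ s.card * D := by
      apply max_le
      · nlinarith
      · exact h1
    calc Nt S t (a m + ∑ m ∈ s, a m) ≤ 4 * (4 ^ s.card * D) :=
          (Nt_add t _ _).trans (mul_le_mul_of_nonneg_left h4 (by norm_num))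
      _ = _ := by rw [pow_succ]; ring

lemma Nt_prod {ι : Type*} (t : InfinitePlace K ⊕ S) (s : Finset ι) (a : ι → K) :
    Nt S t (∏ m ∈ s, a m) = ∏ m ∈ s, Nt S t (a m) := by
  classical
  induction s using Finset.induction_on with
  | empty => rw [Finset.prod_empty, Finset.prod_empty, Nt_one]
  | insert m s hm ih => rw [Finset.prod_insert hm, Finset.prod_insert hm, Nt_mul, ih]

/-- the size of the value of a polynomial -/
lemma Nt_eval {n : ℕ} (f : MvPolynomial (Fin n) K) (t : InfinitePlace K ⊕ S) {u : Fin n → K}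
    {b C : ℝ} (hb : 1 ≤ b) (hC : ∀ m, Nt S t (f.coeff m) ≤ C)
    (hu : ∀ i, Nt S t (u i) ≤ b) :
    Nt S t (MvPolynomial.eval u f) ≤ 4 ^ f.support.card * (C * b ^ f.totalDegree) := by
  classical
  have hC0 : 0 ≤ C := (Nt_nonneg t _).trans (hC 0)
  rw [MvPolynomial.eval_eq]
  refine Nt_sum t _ _ (mul_nonneg hC0 (pow_nonneg (by linarith) _)) fun m hm => ?_
  rw [Nt_mul, Nt_prod]
  refine mul_le_mul (hC m) ?_ (Finset.prod_nonneg fun i _ => Nt_nonneg t _) hC0
  have h1 : ∏ i ∈ m.support, Nt S t (u i ^ m i) ≤ ∏ i ∈ m.support, b ^ m i := by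
    refine Finset.prod_le_prod (fun i _ => Nt_nonneg t _) fun i _ => ?_
    rw [Nt_pow]
    exact pow_le_pow_left₀ (Nt_nonneg t _) (hu i) _
  refine h1.trans ?_
  rw [Finset.prod_pow_eq_pow_sum]
  exact pow_le_pow_right₀ hb (MvPolynomial.le_totalDegree hm)

/-- the main estimate -/
theorem claim_poly (hS : Fintype.card (InfinitePlace K) + S.card ≤ 2) {ε : K} (hε : IsSU S ε)
    (hnt : ¬ Tor ε) {n : ℕ} (f : MvPolynomial (Fin n) K) (d : K) (hd : d ≠ 0) :
    ∃ k0 : ℕ, ∀ k : ℕ, k0 ≤ k → ∀ (u : Fin n → K) (r : Fin n → ℤ),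
      (∀ i, Tor (u i / ε ^ r i)) → (∀ i, 4 * (f.totalDegree : ℤ) * |r i| ≤ k) →
      (∀ v ∉ S, v.valuation K (d * MvPolynomial.eval u f) ≤ v.valuation K (ε ^ k - 1)) →
      MvPolynomial.eval u f = 0 := by
  classical
  obtain ⟨t0, t1, B, hne, hall, hB, h0, h1⟩ := two_places hS hε hnt
  have hB0 : 0 < B := by linarith
  obtain ⟨C1, hC11, hC1⟩ := exists_bound (S := S) (K := K) fun t => Nt S t d
  obtain ⟨C2, hC21, hC2⟩ := exists_bound (S := S) (K := K) fun t =>
    ∑ m ∈ f.support, Nt S t (f.coeff m)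
  obtain ⟨C, hC⟩ : ∃ C : ℝ, C = C1 * (4 ^ f.support.card * C2) := ⟨_, rfl⟩
  have hCpos : 0 ≤ C := by rw [hC]; positivity
  obtain ⟨k1, hk1⟩ := pow_unbounded_of_one_lt (4 + (16 * C ^ 2) ^ 2) hB
  refine ⟨k1, fun k hk u r hr hrk hval => ?_⟩
  by_contra hcon
  have hBk : 4 + (16 * C ^ 2) ^ 2 < B ^ k := hk1.trans_le (pow_le_pow_right₀ hB.le hk)
  have hε1 : ε ^ k - 1 ≠ 0 := by
    intro h
    apply hnt
    refine ⟨k, ?_, sub_eq_zero.1 h⟩
    rcases Nat.eq_zero_or_pos k with rfl | h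
    · rw [pow_zero] at hBk
      have : 0 ≤ (16 * C ^ 2) ^ 2 := by positivity
      linarith
    · exact h
  obtain ⟨z, hz⟩ : ∃ z, z = d * MvPolynomial.eval u f := ⟨_, rfl⟩
  have hz0 : z ≠ 0 := by
    rw [hz]
    exact mul_ne_zero hd hcon
  rw [← hz] at hval
  have hge := prod_ge (S := S) (div_ne_zero hz0 hε1) (fun v hv => by
    have h2 : 0 < v.valuation K (ε ^ k - 1) := by
      rw [zero_lt_iff, Valuation.ne_zero_iff]
      exact hε1
    rw [map_div₀]
    exact (div_le_one₀ h2).2 (hval v hv))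
  have huniv : (Finset.univ : Finset (InfinitePlace K ⊕ S)) = {t0, t1} := by
    ext t
    simpa using hall t
  have hprod : ∀ x : K, ∏ t, Nt S t x = Nt S t0 x * Nt S t1 x := fun x => by
    rw [huniv, Finset.prod_pair hne]
  rw [hprod, div_eq_mul_inv, Nt_mul, Nt_mul, Nt_inv t0 hε1, Nt_inv t1 hε1] at hge
  have p0 := Nt_pos t0 hε1
  have p1 := Nt_pos t1 hε1
  have hge' : Nt S t0 (ε ^ k - 1) * Nt S t1 (ε ^ k - 1) ≤ Nt S t0 z * Nt S t1 z := by
    have h2 : Nt S t0 z * (Nt S t0 (ε ^ k - 1))⁻¹ * (Nt S t1 z * (Nt S t1 (ε ^ k - 1))⁻¹) =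
        (Nt S t0 z * Nt S t1 z) / (Nt S t0 (ε ^ k - 1) * Nt S t1 (ε ^ k - 1)) := by
      field_simp
    rw [h2, one_le_div (mul_pos p0 p1)] at hge
    exact hge
  -- lower bounds
  have l0 : B ^ k ≤ 4 * Nt S t0 (ε ^ k - 1) := by
    have h2 := Nt_add t0 (ε ^ k - 1) (1 : K)
    rw [sub_add_cancel, Nt_pow, h0, Nt_one] at h2
    rcases max_choice (Nt S t0 (ε ^ k - 1)) 1 with h3 | h3
    · rwa [h3] at h2
    · rw [h3] at h2
      have : 0 ≤ (16 * C ^ 2) ^ 2 := by positivity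
      linarith
  have l1 : 1 ≤ 4 * Nt S t1 (ε ^ k - 1) := by
    have h2 := Nt_add t1 (ε ^ k) (-(ε ^ k - 1) : K)
    have h3 : ε ^ k + -(ε ^ k - 1) = 1 := by ring
    rw [h3, Nt_one, Nt_neg, Nt_pow, h1] at h2
    rcases max_choice ((B⁻¹) ^ k) (Nt S t1 (ε ^ k - 1)) with h4 | h4
    · rw [h4] at h2
      have h5 : 0 ≤ (16 * C ^ 2) ^ 2 := by positivity
      have h6 : 0 < B ^ k := pow_pos hB0 _
      rw [inv_pow] at h2
      have h7 : 1 * B ^ k ≤ 4 * (B ^ k)⁻¹ * B ^ k := mul_le_mul_of_nonneg_right h2 h6.le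
      rw [mul_assoc, inv_mul_cancel₀ h6.ne'] at h7
      linarith
    · rwa [h4] at h2
  -- upper bounds
  obtain ⟨ρ, hρ⟩ : ∃ ρ : ℕ, ρ = Finset.univ.sup fun i => (r i).natAbs := ⟨_, rfl⟩
  have hri : ∀ i, (r i).natAbs ≤ ρ := fun i => by
    rw [hρ]
    exact Finset.le_sup (f := fun i => (r i).natAbs) (Finset.mem_univ i)
  have hρk : 4 * f.totalDegree * ρ ≤ k := by
    rcases Nat.eq_zero_or_pos ρ with h | h
    · rw [h, mul_zero]
      exact Nat.zero_le _
    · have hne : (Finset.univ : Finset (Fin n)).Nonempty := by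
        rw [Finset.nonempty_iff_ne_empty]
        intro h2
        rw [h2, Finset.sup_empty] at hρ
        rw [hρ] at h
        exact absurd h (lt_irrefl _)
      obtain ⟨i, -, hi⟩ := Finset.exists_mem_eq_sup _ hne fun i => (r i).natAbs
      have h3 := hrk i
      rw [← Int.natCast_natAbs, ← hi, ← hρ] at h3
      exact_mod_cast h3
  have hBρ : 1 ≤ B ^ ρ := one_le_pow₀ hB.le
  have key : ∀ (n : ℤ), n ≤ ρ → B ^ n ≤ B ^ ρ := by
    intro n hn
    rw [← zpow_natCast]
    exact zpow_le_zpow_right₀ hB.le hn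
  have nu : ∀ (t : InfinitePlace K ⊕ S) (i : Fin n), Nt S t (u i) ≤ B ^ ρ := by
    intro t i
    have h2 := hri i
    rw [Nt_su t hε.1 (hr i)]
    rcases hall t with rfl | rfl
    · rw [h0]
      exact key _ (by omega)
    · rw [h1, inv_zpow, ← zpow_neg]
      exact key _ (by omega)
  obtain ⟨b, hb⟩ : ∃ b : ℝ, b = (B ^ ρ) ^ f.totalDegree := ⟨_, rfl⟩
  have hb0 : 0 ≤ b := by rw [hb]; positivity
  have up : ∀ t, Nt S t z ≤ C * b := by
    intro t
    have hcoef : ∀ m, Nt S t (f.coeff m) ≤ C2 := by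
      intro m
      refine le_trans ?_ (hC2 t)
      by_cases hm : m ∈ f.support
      · exact Finset.single_le_sum (f := fun m => Nt S t (f.coeff m))
          (fun m _ => Nt_nonneg t _) hm
      · rw [MvPolynomial.notMem_support_iff.1 hm, Nt_zero]
        exact Finset.sum_nonneg fun m _ => Nt_nonneg t _
    have h2 := Nt_eval f t hBρ hcoef (nu t)
    rw [hz, Nt_mul]
    calc Nt S t d * Nt S t (MvPolynomial.eval u f)
        ≤ C1 * (4 ^ f.support.card * (C2 * (B ^ ρ) ^ f.totalDegree)) :=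
          mul_le_mul (hC1 t) h2 (Nt_nonneg t _) (by linarith)
      _ = C * b := by rw [hC, hb]; ring
  have hA : 0 ≤ C * b := mul_nonneg hCpos hb0
  have e1 : B ^ k ≤ 16 * C ^ 2 * b ^ 2 := by
    have h2 : B ^ k * 1 ≤ 4 * Nt S t0 (ε ^ k - 1) * (4 * Nt S t1 (ε ^ k - 1)) :=
      mul_le_mul l0 l1 zero_le_one (by linarith)
    have h3 : Nt S t0 z * Nt S t1 z ≤ C * b * (C * b) :=
      mul_le_mul (up t0) (up t1) (Nt_nonneg t1 z) hA
    nlinarith
  have e2 : b ^ 4 ≤ B ^ k := by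
    rw [hb, ← pow_mul, ← pow_mul]
    exact pow_le_pow_right₀ hB.le (by linarith [hρk, mul_comm ρ (f.totalDegree * 4)])
  have hk0 : 0 < B ^ k := pow_pos hB0 _
  have e3 : (B ^ k) ^ 2 ≤ (16 * C ^ 2) ^ 2 * B ^ k := by
    calc (B ^ k) ^ 2 ≤ (16 * C ^ 2 * b ^ 2) ^ 2 := pow_le_pow_left₀ hk0.le e1 2
      _ = (16 * C ^ 2) ^ 2 * b ^ 4 := by ring
      _ ≤ _ := mul_le_mul_of_nonneg_left e2 (by positivity)
  have e4 : B ^ k ≤ (16 * C ^ 2) ^ 2 := by
    rw [sq (B ^ k)] at e3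
    exact le_of_mul_le_mul_right e3 hk0
  linarith

end

/-- simultaneous approximation -/
theorem dirichletN {n : ℕ} (a : Fin n → ℤ) {N J : ℕ} (hN : 0 < N) (hJ : 0 < J) :
    ∃ q : ℕ, 1 ≤ q ∧ q ≤ J ^ n ∧ ∃ A : Fin n → ℤ, ∀ i, J * |q * a i - A i * N| ≤ N := by
  classical
  have hN' : (0 : ℤ) < N := by exact_mod_cast hN
  have hJ' : (0 : ℤ) < J := by exact_mod_cast hJ
  have hb : ∀ c : ℤ, 0 ≤ J * (c % N) / N ∧ J * (c % N) / N < (J : ℤ) := by
    intro c
    have h1 := Int.emod_nonneg c hN'.ne'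
    have h2 := Int.emod_lt_of_pos c hN'
    refine ⟨Int.ediv_nonneg (by positivity) hN'.le, ?_⟩
    rw [Int.ediv_lt_iff_lt_mul hN']
    exact mul_lt_mul_of_pos_left h2 hJ'
  let f : Fin (J ^ n + 1) → (Fin n → Fin J) := fun j i =>
    ⟨(J * ((j : ℤ) * a i % N) / N).toNat, by have := hb ((j : ℤ) * a i); omega⟩
  have hninj : ¬ Function.Injective f := by
    intro h
    have h1 := Fintype.card_le_of_injective f h
    rw [Fintype.card_fin, Fintype.card_fun, Fintype.card_fin, Fintype.card_fin] at h1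
    omega
  rw [Function.not_injective_iff] at hninj
  obtain ⟨i, j, hij, hne⟩ := hninj
  wlog hlt : i < j generalizing i j
  · exact this j i hij.symm hne.symm (lt_of_le_of_ne (not_lt.1 hlt) hne.symm)
  have hij' : (i : ℕ) < j := hlt
  have hj := j.2
  have key : ∀ l : Fin n, ∃ A : ℤ, J * |(((j : ℕ) - (i : ℕ) : ℕ) : ℤ) * a l - A * N| ≤ N := by
    intro l
    have hc : (J * ((i : ℤ) * a l % N) / N).toNat = (J * ((j : ℤ) * a l % N) / N).toNat :=
      congrArg Fin.val (congrFun hij l)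
    obtain ⟨c, hcl⟩ : ∃ c, c = a l := ⟨_, rfl⟩
    rw [← hcl] at hc ⊢
    have h1 := hb ((i : ℤ) * c)
    have h2 := hb ((j : ℤ) * c)
    have h3 : J * ((i : ℤ) * c % N) / N = J * ((j : ℤ) * c % N) / N := by omega
    refine ⟨(j : ℤ) * c / N - (i : ℤ) * c / N, ?_⟩
    have e1 := Int.emod_add_mul_ediv ((i : ℤ) * c) N
    have e2 := Int.emod_add_mul_ediv ((j : ℤ) * c) N
    have e3 := Int.emod_add_mul_ediv (J * ((i : ℤ) * c % N)) N
    have e4 := Int.emod_add_mul_ediv (J * ((j : ℤ) * c % N)) N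
    have l1 := Int.emod_nonneg (J * ((i : ℤ) * c % N)) hN'.ne'
    have l2 := Int.emod_lt_of_pos (J * ((i : ℤ) * c % N)) hN'
    have l3 := Int.emod_nonneg (J * ((j : ℤ) * c % N)) hN'.ne'
    have l4 := Int.emod_lt_of_pos (J * ((j : ℤ) * c % N)) hN'
    have e5 : (((j : ℕ) - (i : ℕ) : ℕ) : ℤ) * c - ((j : ℤ) * c / N - (i : ℤ) * c / N) * N =
        (j : ℤ) * c % N - (i : ℤ) * c % N := by
      rw [Nat.cast_sub hij'.le]
      linear_combination e1 - e2
    rw [e5]
    have e6 : J * ((j : ℤ) * c % N) - J * ((i : ℤ) * c % N) =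
        (J * ((j : ℤ) * c % N)) % N - (J * ((i : ℤ) * c % N)) % N := by
      rw [h3] at e3
      linear_combination e3 - e4
    have e7 : J * |(j : ℤ) * c % N - (i : ℤ) * c % N| =
        |J * ((j : ℤ) * c % N) - J * ((i : ℤ) * c % N)| := by
      rw [← mul_sub, abs_mul, abs_of_pos hJ']
    rw [e7, e6, abs_le]
    constructor <;> linarith
  choose A hA using key
  exact ⟨(j : ℕ) - i, by omega, by omega, A, hA⟩

section polyval

variable {C Γ : Type*} [Field C] [LinearOrderedCommGroupWithZero Γ] (V : Valuation C Γ)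

lemma V_prod_sub {ι : Type*} (s : Finset ι) (a b : ι → C) (ha : ∀ i, V (a i) ≤ 1)
    (hb : ∀ i, V (b i) ≤ 1) {τ : Γ} (h : ∀ i, V (a i - b i) ≤ τ) :
    V (∏ i ∈ s, a i - ∏ i ∈ s, b i) ≤ τ := by
  classical
  induction s using Finset.induction_on with
  | empty => rw [Finset.prod_empty, Finset.prod_empty, sub_self, map_zero]; exact zero_le
  | insert i s hi ih =>
    rw [Finset.prod_insert hi, Finset.prod_insert hi]
    have e : a i * ∏ i ∈ s, a i - b i * ∏ i ∈ s, b i =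
        a i * (∏ i ∈ s, a i - ∏ i ∈ s, b i) + (a i - b i) * ∏ i ∈ s, b i := by ring
    rw [e]
    refine Valuation.map_add_le _ ?_ ?_
    · rw [map_mul]
      calc V (a i) * V (∏ i ∈ s, a i - ∏ i ∈ s, b i) ≤ 1 * τ := mul_le_mul' (ha i) ih
        _ = τ := one_mul τ
    · rw [map_mul]
      have h2 : V (∏ i ∈ s, b i) ≤ 1 := by
        rw [map_prod]
        exact Finset.prod_le_one' fun i _ => hb i
      calc V (a i - b i) * V (∏ i ∈ s, b i) ≤ τ * 1 := mul_le_mul' (h i) h2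
        _ = τ := mul_one τ

lemma V_pow_sub_pow {a b : C} (ha : V a ≤ 1) (hb : V b ≤ 1) {τ : Γ} (h : V (a - b) ≤ τ) (m : ℕ) :
    V (a ^ m - b ^ m) ≤ τ := by
  have := V_prod_sub V (Finset.range m) (fun _ => a) (fun _ => b) (fun _ => ha) (fun _ => hb)
    (fun _ => h)
  rwa [Finset.prod_const, Finset.prod_const, Finset.card_range] at this

/-- congruence of values of polynomials with integral coefficients -/
lemma V_eval_sub {K : Type*} [Field K] [Algebra K C] {n : ℕ} (f : MvPolynomial (Fin n) K) (d : K)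
    (hd : ∀ m, V (algebraMap K C (d * f.coeff m)) ≤ 1) (a b : Fin n → C) (ha : ∀ i, V (a i) ≤ 1)
    (hb : ∀ i, V (b i) ≤ 1) {τ : Γ} (h : ∀ i, V (a i - b i) ≤ τ) :
    V (algebraMap K C d * (MvPolynomial.aeval a f - MvPolynomial.aeval b f)) ≤ τ := by
  classical
  rw [MvPolynomial.aeval_def, MvPolynomial.aeval_def, MvPolynomial.eval₂_eq',
    MvPolynomial.eval₂_eq', ← Finset.sum_sub_distrib, Finset.mul_sum]
  refine V.map_sum_le fun m _ => ?_
  have e : algebraMap K C d * (algebraMap K C (f.coeff m) * ∏ i, a i ^ m i -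
      algebraMap K C (f.coeff m) * ∏ i, b i ^ m i) =
      algebraMap K C (d * f.coeff m) * (∏ i, a i ^ m i - ∏ i, b i ^ m i) := by
    rw [map_mul]
    ring
  rw [e, map_mul]
  calc V (algebraMap K C (d * f.coeff m)) * V (∏ i, a i ^ m i - ∏ i, b i ^ m i) ≤ 1 * τ := by
        refine mul_le_mul' (hd m) (V_prod_sub V _ _ _ ?_ ?_ ?_)
        · intro i
          rw [map_pow]
          exact pow_le_one₀ zero_le (ha i)
        · intro i
          rw [map_pow]
          exact pow_le_one₀ zero_le (hb i)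
        · intro i
          exact V_pow_sub_pow V (ha i) (hb i) (h i) _
    _ = τ := one_mul τ

end polyval

end Pool.Agent.Y158.SI
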