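import Pool.Agent.Y158.SI.Gen1

/-!
# Points of subvarieties of tori over a field with places in all completions
-/

set_option autoImplicit false
set_option linter.unusedSectionVars false

namespace Pool.Agent.Y158.SI

open NumberField IsDedekindDomain WithZero Pool.Agent.TH954 Pool.Agent.Y158.KL

variable {K L : Type} [Field K] [NumberField K] [Field L] [Algebra K L]
  {S : Finset (HeightOneSpectrum (𝓞 K))}

/-- a common denominator of the coefficients of finitely many polynomials -/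
lemma exists_denP {n : ℕ} (I : Finset (MvPolynomial (Fin n) K)) : ∃ d : K, d ≠ 0 ∧
    (∀ v : HeightOneSpectrum (𝓞 K), v.valuation K d ≤ 1) ∧
    ∀ f ∈ I, ∀ m, ∀ v : HeightOneSpectrum (𝓞 K), v.valuation K (d * f.coeff m) ≤ 1 := by
  classical
  choose den hden0 hden using exists_den (K := K)
  obtain ⟨d, hd⟩ : ∃ d : K, d = ∏ f ∈ I, ∏ m ∈ f.support,
      algebraMap (𝓞 K) K (den (f.coeff m)) := ⟨_, rfl⟩
  have hle : ∀ (v : HeightOneSpectrum (𝓞 K)) (f : MvPolynomial (Fin n) K),
      v.valuation K (∏ m ∈ f.support, algebraMap (𝓞 K) K (den (f.coeff m))) ≤ 1 := by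
    intro v f
    rw [map_prod]
    exact Finset.prod_le_one' fun m _ => v.valuation_le_one _
  refine ⟨d, ?_, fun v => ?_, fun f hf m v => ?_⟩
  · rw [hd]
    refine Finset.prod_ne_zero_iff.2 fun f _ => Finset.prod_ne_zero_iff.2 fun m _ => ?_
    exact (map_ne_zero_iff _ (FaithfulSMul.algebraMap_injective (𝓞 K) K)).2 (hden0 _)
  · rw [hd, map_prod]
    exact Finset.prod_le_one' fun f _ => hle v f
  · by_cases hm : m ∈ f.support
    · rw [hd, ← Finset.mul_prod_erase I _ hf, ← Finset.mul_prod_erase f.support _ hm]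
      have e : algebraMap (𝓞 K) K (den (f.coeff m)) *
          (∏ x ∈ f.support.erase m, algebraMap (𝓞 K) K (den (f.coeff x))) *
          (∏ g ∈ I.erase f, ∏ m ∈ g.support, algebraMap (𝓞 K) K (den (g.coeff m))) * f.coeff m =
          (algebraMap (𝓞 K) K (den (f.coeff m)) * f.coeff m) *
          ((∏ x ∈ f.support.erase m, algebraMap (𝓞 K) K (den (f.coeff x))) *
          (∏ g ∈ I.erase f, ∏ m ∈ g.support, algebraMap (𝓞 K) K (den (g.coeff m)))) := by ring
      rw [e, map_mul]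
      refine mul_le_one' (hden _ v) ?_
      rw [map_mul]
      refine mul_le_one' ?_ ?_
      · rw [map_prod]
        exact Finset.prod_le_one' fun m _ => v.valuation_le_one _
      · rw [map_prod]
        exact Finset.prod_le_one' fun g _ => hle v g
    · rw [MvPolynomial.notMem_support_iff.1 hm, mul_zero, map_zero]
      exact zero_le

lemma aeval_alg {C : Type*} [Field C] [Algebra K C] {n : ℕ} (w : Fin n → K)
    (f : MvPolynomial (Fin n) K) : MvPolynomial.aeval (fun i => algebraMap K C (w i)) f =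
      algebraMap K C (MvPolynomial.eval w f) :=
  MvPolynomial.aeval_algebraMap_apply C w f

variable (p : ∀ v : HeightOneSpectrum (𝓞 K), Plc K L (v.adicCompletion K))

lemma plc_eval {v : HeightOneSpectrum (𝓞 K)} {n : ℕ} (f : MvPolynomial (Fin n) K) {x : Fin n → L}
    {X : Fin n → v.adicCompletion K} (h : ∀ i, (p v).val (x i) (X i)) :
    (p v).val (MvPolynomial.aeval x f) (MvPolynomial.aeval X f) := by
  classical
  rw [MvPolynomial.aeval_def, MvPolynomial.aeval_def, MvPolynomial.eval₂_eq',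
    MvPolynomial.eval₂_eq']
  have hprod : ∀ (s : Finset (Fin n)) (m : Fin n →₀ ℕ),
      (p v).val (∏ i ∈ s, x i ^ m i) (∏ i ∈ s, X i ^ m i) := by
    intro s m
    induction s using Finset.induction_on with
    | empty => exact Plc.val_one
    | insert i s hi ih =>
      rw [Finset.prod_insert hi, Finset.prod_insert hi]
      exact ((h i).pow _).mul ih
  have hsum : ∀ s : Finset (Fin n →₀ ℕ), (p v).val
      (∑ m ∈ s, algebraMap K L (f.coeff m) * ∏ i, x i ^ m i)
      (∑ m ∈ s, algebraMap K (v.adicCompletion K) (f.coeff m) * ∏ i, X i ^ m i) := by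
    intro s
    induction s using Finset.induction_on with
    | empty => exact Plc.val_zero
    | insert m s hm ih =>
      rw [Finset.sum_insert hm, Finset.sum_insert hm]
      exact ((Plc.val_alg _).mul (hprod _ m)).add ih
  exact hsum _

/-- Step 2 in general -/
theorem step2N (hS : Fintype.card (InfinitePlace K) + S.card ≤ 2) {ε : K} (hε : IsSU S ε)
    (hgen : ∀ u, IsSU S u → ∃ n : ℤ, Tor (u / ε ^ n)) (hnt : ¬ Tor ε) {n : ℕ}
    (I : Finset (MvPolynomial (Fin n) K)) {x : Fin n → L}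
    (hI : ∀ f ∈ I, MvPolynomial.aeval x f = 0) (hx : ∀ i, Div K (x i))
    {X : ∀ v : HeightOneSpectrum (𝓞 K), Fin n → v.adicCompletion K}
    (hX : ∀ v i, (p v).val (x i) (X v i)) (hX1 : ∀ v ∉ S, ∀ i, Vv v (X v i) = 1) {M : ℕ}
    (hM : 0 < M) :
    ∃ w : Fin n → K, (∀ i, IsSU S (w i)) ∧ (∀ f ∈ I, MvPolynomial.eval w f = 0) ∧
      ∀ i, ∃ g : L, x i = algebraMap K L (w i) * g ^ M := by
  classical
  obtain ⟨d, hd0, hd1, hdI⟩ := exists_denP I
  choose k00 hk00 using fun f : MvPolynomial (Fin n) K => claim_poly hS hε hnt f d hd0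
  obtain ⟨k0, hk0⟩ : ∃ k0 : ℕ, k0 = ∑ f ∈ I, k00 f := ⟨_, rfl⟩
  have hk0le : ∀ f ∈ I, k00 f ≤ k0 := fun f hf => by
    rw [hk0]
    exact Finset.single_le_sum (f := k00) (fun _ _ => Nat.zero_le _) hf
  obtain ⟨J, hJ⟩ : ∃ J : ℕ, J = 1 + ∑ f ∈ I, 4 * f.totalDegree := ⟨_, rfl⟩
  have hJpos : 0 < J := by omega
  have hJle : ∀ f ∈ I, 4 * f.totalDegree ≤ J := fun f hf => by
    have := Finset.single_le_sum (f := fun f : MvPolynomial (Fin n) K => 4 * f.totalDegree)
      (fun _ _ => Nat.zero_le _) hf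
    omega
  obtain ⟨Q, hQ⟩ : ∃ Q : ℕ, Q = J ^ n := ⟨_, rfl⟩
  obtain ⟨N, hN⟩ : ∃ N : ℕ, N = M * Nat.factorial Q * (k0 + 1) := ⟨_, rfl⟩
  have hNpos : 0 < N := by
    rw [hN]
    exact Nat.mul_pos (Nat.mul_pos hM (Nat.factorial_pos _)) (Nat.succ_pos _)
  have hdiv : ∀ q : ℕ, 1 ≤ q → q ≤ Q → ∃ k : ℕ, N = k * q ∧ M ∣ k ∧ k0 ≤ k ∧ 0 < k := by
    intro q h1 h2
    obtain ⟨j, hj⟩ := Nat.dvd_factorial h1 h2
    have hj0 : 0 < j := by
      rcases Nat.eq_zero_or_pos j with rfl | h
      · rw [mul_zero] at hj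
        exact absurd hj (Nat.factorial_pos Q).ne'
      · exact h
    refine ⟨M * j * (k0 + 1), ?_, ?_, ?_, ?_⟩
    · rw [hN, hj]
      ring
    · rw [mul_assoc]
      exact Dvd.intro _ rfl
    · calc k0 ≤ k0 + 1 := Nat.le_succ _
        _ ≤ M * j * (k0 + 1) := Nat.le_mul_of_pos_left _ (Nat.mul_pos hM hj0)
    · exact Nat.mul_pos (Nat.mul_pos hM hj0) (Nat.succ_pos _)
  have hne : ∀ k : ℕ, 0 < k → ε ^ k - 1 ≠ 0 := fun k hk h => hnt ⟨k, hk, sub_eq_zero.1 h⟩
  have hEx : ∀ q : ℕ, ∃ E : ℕ, 0 < E ∧ (1 ≤ q → q ≤ Q → ∀ k : ℕ, N = k * q →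
      ∀ (v : HeightOneSpectrum (𝓞 K)) (g : v.adicCompletion K), Vv v g = 1 →
        Vv v (g ^ E - 1) ≤ v.valuation K (ε ^ k - 1)) := by
    intro q
    by_cases hq : 1 ≤ q ∧ q ≤ Q
    · obtain ⟨k, hk, -, -, hkpos⟩ := hdiv q hq.1 hq.2
      obtain ⟨c, hc, hcv⟩ := exists_num (hne k hkpos)
      obtain ⟨E, hE, h⟩ := local_exp hc
      refine ⟨E, hE, fun _ _ k' hk' v g hg => ?_⟩
      have : k' = k := Nat.eq_of_mul_eq_mul_right hq.1 (hk'.symm.trans hk)
      rw [this]
      exact (h v g hg).trans (hcv v)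
    · exact ⟨1, one_pos, fun h1 h2 => absurd ⟨h1, h2⟩ hq⟩
  choose Eq hEq0 hEq using hEx
  obtain ⟨E, hE⟩ : ∃ E : ℕ, E = ∏ q ∈ Finset.range (Q + 1), Eq q := ⟨_, rfl⟩
  have hEpos : 0 < E := by
    rw [hE]
    exact Finset.prod_pos fun q _ => hEq0 q
  choose u hu g hg using fun i => step1 p (hx i) (fun v => hX v i) (fun v hv => hX1 v hv i)
    (Nat.mul_pos hNpos hEpos)
  choose a ha using fun i => hgen (u i) (hu i)
  obtain ⟨q, hq1, hq2, A, hA⟩ := dirichletN a hNpos hJpos
  rw [← hQ] at hq2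
  obtain ⟨k, hk, hMk, hk0k, hkpos⟩ := hdiv q hq1 hq2
  have hqE : Eq q ∣ E := by
    rw [hE]
    exact Finset.dvd_prod_of_mem Eq (Finset.mem_range.2 (by omega))
  have hε0 : ε ≠ 0 := hε.1
  have habs : ∀ a A : ℤ, J * |(q : ℤ) * a - A * N| ≤ N → J * |a - A * k| ≤ k := by
    intro a A h
    have hq0 : (0 : ℤ) < q := by exact_mod_cast hq1
    have e : (q : ℤ) * a - A * N = q * (a - A * k) := by
      rw [hk]
      push_cast
      ring
    rw [e, abs_mul, abs_of_pos hq0, hk] at h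
    push_cast at h
    have h2 : (q : ℤ) * (J * |a - A * k|) ≤ q * k := by linarith
    exact le_of_mul_le_mul_left h2 hq0
  -- the general reduction
  have red : ∀ i, ∃ w : K, IsSU S w ∧ Tor (w / ε ^ (a i - A i * k)) ∧
      (∃ g : L, x i = algebraMap K L w * g ^ M) ∧
        ∀ v ∉ S, Vv v (X v i - algebraMap K (v.adicCompletion K) w) ≤
          v.valuation K (ε ^ k - 1) := by
    intro i
    obtain ⟨s, hs⟩ : ∃ s, s = u i := ⟨_, rfl⟩
    obtain ⟨h, hh⟩ : ∃ h, h = g i := ⟨_, rfl⟩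
    obtain ⟨c, hc⟩ : ∃ c, c = a i := ⟨_, rfl⟩
    obtain ⟨C, hC⟩ : ∃ C, C = A i := ⟨_, rfl⟩
    have hs1 : IsSU S s := by rw [hs]; exact hu i
    have hsc : Tor (s / ε ^ c) := by rw [hs, hc]; exact ha i
    have hz : x i = algebraMap K L s * h ^ (N * E) := by rw [hs, hh]; exact hg i
    rw [← hc, ← hC]
    refine ⟨s * ε ^ (-(C * k)), hs1.mul (hε.zpow _), ?_, ?_, ?_⟩
    · have e : s * ε ^ (-(C * k)) / ε ^ (c - C * k) = s / ε ^ c := by
        rw [sub_eq_add_neg, zpow_add₀ hε0, mul_div_mul_right _ _ (zpow_ne_zero _ hε0)]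
      rw [e]
      exact hsc
    · obtain ⟨j, hj⟩ := hMk
      refine ⟨(algebraMap K L ε ^ C * h ^ (q * E)) ^ j, ?_⟩
      have hεL : algebraMap K L ε ≠ 0 := (map_ne_zero _).2 hε0
      have e1 : ((algebraMap K L ε ^ C * h ^ (q * E)) ^ j) ^ M =
          algebraMap K L ε ^ (C * k) * h ^ (N * E) := by
        rw [← pow_mul, mul_comm j M, ← hj, mul_pow, ← pow_mul, zpow_mul, zpow_natCast, hk]
        congr 2
        ring
      rw [e1, map_mul, map_zpow₀, zpow_neg, hz]
      field_simp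
    · intro v hv
      obtain ⟨γ, hγ, h1⟩ := value_pow hs1.1 (Nat.mul_pos hNpos hEpos) hz (hX v i)
      have hVs : Vv v (algebraMap K (v.adicCompletion K) s) = 1 := by rw [Vv_coe, hs1.2 v hv]
      have hVγ : Vv v γ = 1 := by
        have h2 := congrArg (Vv v) h1
        rw [hX1 v hv i, map_mul, hVs, one_mul, map_pow] at h2
        exact wz_pow_eq_one (Nat.mul_pos hNpos hEpos) h2.symm
      have hVε : Vv v (algebraMap K (v.adicCompletion K) ε) = 1 := by rw [Vv_coe, hε.2 v hv]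
      have hεC : algebraMap K (v.adicCompletion K) ε ≠ 0 := (map_ne_zero _).2 hε0
      obtain ⟨e, he⟩ : ∃ e, e = algebraMap K (v.adicCompletion K) ε := ⟨_, rfl⟩
      rw [← he] at hVε hεC
      have e1 : X v i - algebraMap K (v.adicCompletion K) (s * ε ^ (-(C * k))) =
          algebraMap K (v.adicCompletion K) s *
            ((γ ^ (N * E) - 1) - ((e ^ k) ^ (-C) - 1)) := by
        rw [h1, map_mul, map_zpow₀, ← he]
        have : e ^ (-(C * k)) = (e ^ k) ^ (-C) := by
          rw [← zpow_natCast e k, ← zpow_mul]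
          congr 1
          ring
        rw [this]
        ring
      rw [e1, map_mul, hVs, one_mul]
      refine Valuation.map_sub_le _ ?_ ?_
      · have h3 : Vv v (γ ^ N) = 1 := by rw [map_pow, hVγ, one_pow]
        rw [pow_mul]
        exact V_prod_exp h3 hqE (hEq q hq1 hq2 k hk v _ h3)
      · refine (V_zpow_sub (Vv v) (by rw [map_pow, hVε, one_pow]) _).trans ?_
        have h5 : algebraMap K (v.adicCompletion K) (ε ^ k - 1) = e ^ k - 1 := by
          rw [map_sub, map_pow, map_one, ← he]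
        rw [← Vv_coe, h5]
  choose w hw hwt hwx hwv using red
  refine ⟨w, hw, fun f hf => ?_, hwx⟩
  refine hk00 f k ((hk0le f hf).trans hk0k) w _ hwt (fun i => ?_) fun v hv => ?_
  · refine le_trans ?_ (habs _ _ (hA i))
    refine mul_le_mul_of_nonneg_right ?_ (abs_nonneg _)
    exact_mod_cast hJle f hf
  · rw [← Vv_coe]
    have hloc : MvPolynomial.aeval (X v) f = 0 := by
      have h1 := plc_eval p f (hX v)
      rw [hI f hf] at h1
      exact (Plc.val_zero.unique h1).symm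
    have e : algebraMap K (v.adicCompletion K) (d * MvPolynomial.eval w f) =
        algebraMap K (v.adicCompletion K) d *
          (MvPolynomial.aeval (fun i => algebraMap K (v.adicCompletion K) (w i)) f -
            MvPolynomial.aeval (X v) f) := by
      have h2 : MvPolynomial.aeval (fun i => algebraMap K (v.adicCompletion K) (w i)) f =
          algebraMap K (v.adicCompletion K) (MvPolynomial.eval w f) := aeval_alg w f
      rw [hloc, sub_zero, h2, map_mul]
    rw [e]
    refine V_eval_sub (Vv v) f d (fun m => ?_) _ _ (fun i => ?_) (fun i => ?_) (fun i => ?_)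
    · rw [Vv_coe]
      exact hdI f hf m v
    · rw [Vv_coe, (hw i).2 v hv]
    · exact (hX1 v hv i).le
    · rw [Valuation.map_sub_swap]
      exact hwv i v hv

/-- the general theorem: the class lies in the closure of the set of `S`-integral points -/
theorem mainN (hS : Fintype.card (InfinitePlace K) + S.card ≤ 2) {n : ℕ}
    (I : Finset (MvPolynomial (Fin n) K)) {x : Fin n → L}
    (hI : ∀ f ∈ I, MvPolynomial.aeval x f = 0) (hx : ∀ i, Div K (x i))
    {X : ∀ v : HeightOneSpectrum (𝓞 K), Fin n → v.adicCompletion K}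
    (hX : ∀ v i, (p v).val (x i) (X v i)) (hX0 : ∀ v i, X v i ≠ 0)
    (hX1 : ∀ v ∉ S, ∀ i, Vv v (X v i) = 1) {M : ℕ} (hM : 0 < M) :
    ∃ w : Fin n → K, (∀ i, IsSU S (w i)) ∧ (∀ f ∈ I, MvPolynomial.eval w f = 0) ∧
      ∀ i, ∃ g : L, x i = algebraMap K L (w i) * g ^ M := by
  classical
  obtain ⟨ε, hε, hgen⟩ := units_struct hS
  by_cases hnt : Tor ε
  · obtain ⟨w, hw, hord⟩ := exists_order K
    have mono : ∀ (z : L) (s : K) (m n : ℕ), m ∣ n → (∃ g : L, z = algebraMap K L s * g ^ n) →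
        ∃ g : L, z = algebraMap K L s * g ^ m := by
      rintro z s m n ⟨j, rfl⟩ ⟨g, hg⟩
      exact ⟨g ^ j, by rw [hg, ← pow_mul, mul_comm m j]⟩
    have hall : ∀ u : K, IsSU S u → u ^ w = 1 := by
      intro u hu
      apply hord
      obtain ⟨n, m, hm, h⟩ := hgen u hu
      obtain ⟨m', hm', h'⟩ := hnt
      refine ⟨m * m', Nat.mul_pos hm hm', ?_⟩
      have e : u = u / ε ^ n * ε ^ n := by rw [div_mul_cancel₀ _ (zpow_ne_zero _ hε.1)]
      rw [e, mul_pow, pow_mul, h, one_pow, one_mul, ← zpow_natCast, ← zpow_mul, mul_comm n,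
        zpow_mul, zpow_natCast, mul_comm m m', pow_mul, h', one_pow, one_zpow]
    have fin : ∀ i, ∃ u : K, IsSU S u ∧
        ∀ m : ℕ, 0 < m → ∃ g : L, x i = algebraMap K L u * g ^ m := by
      intro i
      obtain ⟨u, hu, h⟩ := pigeon (F := {u : K | IsSU S u ∧ u ^ w = 1})
        ((finite_roots (K := K) hw).subset fun u hu => hu.2)
        (fun m u => ∃ g : L, x i = algebraMap K L u * g ^ m) (fun m n u => mono (x i) u m n) (by
          intro m hm
          obtain ⟨u, hu, g, hg⟩ := step1 p (hx i) (fun v => hX v i) (fun v hv => hX1 v hv i) hm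
          exact ⟨u, ⟨hu, hall u hu⟩, g, hg⟩)
      exact ⟨u, hu.1, h⟩
    choose u hu hux using fin
    have hXu : ∀ v i, X v i = algebraMap K (v.adicCompletion K) (u i) := fun v i =>
      value_eq p (hu i).1 (hX v i) (hX0 v i) (hux i)
    refine ⟨u, hu, fun f hf => ?_, fun i => hux i M hM⟩
    obtain ⟨P, hP1, hP2⟩ := Ring.not_isField_iff_exists_prime.1 (RingOfIntegers.not_isField K)
    let v : HeightOneSpectrum (𝓞 K) := ⟨P, hP2, hP1⟩
    apply (algebraMap K (v.adicCompletion K)).injective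
    have h1 := plc_eval p f (hX v)
    rw [hI f hf] at h1
    have h2 : MvPolynomial.aeval (X v) f = 0 := (Plc.val_zero.unique h1).symm
    have h3 : X v = fun i => algebraMap K (v.adicCompletion K) (u i) := funext fun i => hXu v i
    rw [h3, aeval_alg] at h2
    rw [map_zero]
    exact h2
  · exact step2N p hS hε hgen hnt I hI hx hX hX1 hM

end Pool.Agent.Y158.SI
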