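import Pool.Agent.Y158.SI.Main
import Pool.Agent.Y158.KL.Sec2

/-!
# Sections and the unit equation
-/

set_option autoImplicit false
set_option linter.unusedSectionVars false

namespace Pool.Agent.Y158.SI

open NumberField IsDedekindDomain WithZero Pool.Agent.TH954 Pool.Agent.W620.SC Pool.Agent.Y158.KL

/-- Kummer theory for functions that are units on the curve -/
theorem kum_unit {K F Ω M : Type} [Field K] [CharZero K] [Field F] [Field Ω] [Field M]
    [Algebra K F] [Algebra F Ω] [Algebra K Ω] [Algebra F M] [Algebra K M] [IsScalarTower K F Ω]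
    [IsScalarTower K F M] [IsAlgClosed Ω] {A : SAct K M} {U : Set (ValuationSubring F)}
    {e : M →ₐ[F] Ω} (hAF : ∀ τ (x : F), A.s τ (algebraMap F M x) = algebraMap F M x)
    (hU : ∀ O ∈ U, ∀ c : K, algebraMap K F c ∈ O)
    (he : unramified F Ω U ≤ e.fieldRange) {x : F} (hx0 : x ≠ 0)
    (hx : ∀ O ∈ U, x ∈ O ∧ x⁻¹ ∈ O) {n : ℕ} (hn : 0 < n) :
    ∃ c : K, c ≠ 0 ∧ ∃ g : fld A U e,
      (⟨algebraMap F M x, F_mem hAF x⟩ : fld A U e) = algebraMap K (fld A U e) c * g ^ n := by
  classical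
  have : IsGalois K (AlgebraicClosure K) := ⟨⟩
  have hwf : ∀ τ, A.s τ (algebraMap F M x) = algebraMap F M x := fun τ => hAF τ x
  have hw0' : algebraMap F M x ≠ 0 := (map_ne_zero _).2 hx0
  obtain ⟨r, hr⟩ := IsAlgClosed.exists_pow_nat_eq (algebraMap F Ω x) hn
  have hew : algebraMap F Ω x ≠ 0 := (map_ne_zero _).2 hx0
  have hr0 : r ≠ 0 := by
    rintro rfl
    rw [zero_pow hn.ne'] at hr
    exact hew hr.symm
  have hrU : r ∈ unramified F Ω U := by
    rw [mem_unramified]
    intro W hW σ hσ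
    have hWK := W_const hU hW
    have h12 := hx _ hW
    rw [ValuationSubring.mem_comap, ValuationSubring.mem_comap] at h12
    refine inertia_root hWK hσ hn (t := 1) ?_ ?_ one_ne_zero hr0 ?_ ?_
    · rw [hr]
      exact σ.commutes x
    · exact map_one σ
    · rw [hr, one_pow, div_one]
      exact h12.1
    · rw [hr, one_pow, one_div, ← map_inv₀]
      exact h12.2
  obtain ⟨r', hr'⟩ := he hrU
  have hr'e : e r' = r := hr'
  have hr'w : r' ^ n = algebraMap F M x := by
    apply e.injective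
    change e (r' ^ n) = e (algebraMap F M x)
    rw [map_pow, hr'e, hr, e.commutes]
  have hr'0 : r' ≠ 0 := by
    rintro rfl
    rw [map_zero] at hr'e
    exact hr0 hr'e.symm
  obtain ⟨E, hE, hEw⟩ := A.cont r'
  obtain ⟨β, hβ0, hβ⟩ := exists_fixed_multiple A.ra
    (A.j : AlgebraicClosure K →+* M) (fun σ a => A.hj σ a) ⊤ r' hr'0 (by
      intro σ _
      have h1 : (A.s σ r' / r') ^ n = 1 := by
        rw [div_pow, ← map_pow, hr'w, hwf σ, div_self hw0']
      obtain ⟨ζ, hζ⟩ := root_mem (A.j : AlgebraicClosure K →+* M) hn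
        (h := A.s σ r' / r') (b := 1) (by rw [h1, map_one])
      refine ⟨ζ, ?_⟩
      rw [hζ]
      change A.s σ r' = A.s σ r' / r' * r'
      rw [div_mul_cancel₀ _ hr'0]) E (by
      intro σ hσ
      exact hEw σ (fun z hz => (IntermediateField.mem_fixingSubgroup_iff _ _).1 hσ z hz))
  have hg : A.j β * r' ∈ A.fix := fun τ => hβ τ (Subgroup.mem_top τ)
  have hβU : e (A.j β) ∈ unramified F Ω U := by
    rw [mem_unramified]
    intro W hW σ hσ
    refine inertia_const (W_const hU hW) hσ ?_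
    have h1 : IsIntegral K β := (Algebra.IsAlgebraic.isAlgebraic β).isIntegral
    exact h1.map ((e.restrictScalars K).comp A.j)
  have hgU : A.j β * r' ∈ fld A U e := by
    rw [mem_fld]
    refine ⟨hg, ?_⟩
    rw [map_mul, hr'e]
    exact mul_mem hβU hrU
  have hβn : A.j (β ^ n) ∈ A.fix := by
    have e1 : A.j (β ^ n) = (A.j β * r') ^ n / algebraMap F M x := by
      rw [mul_pow, hr'w, map_pow, mul_div_assoc, div_self hw0', mul_one]
    rw [e1]
    exact div_mem (pow_mem hg n) hwf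
  obtain ⟨c, hc⟩ := A.fix_j hβn
  have hc0 : c ≠ 0 := by
    rintro rfl
    rw [map_zero] at hc
    exact pow_ne_zero n hβ0 hc.symm
  refine ⟨c⁻¹, inv_ne_zero hc0, ⟨_, hgU⟩, ?_⟩
  apply Subtype.ext
  change algebraMap F M x = algebraMap K M c⁻¹ * (A.j β * r') ^ n
  have e1 : algebraMap K M c = A.j β ^ n := by
    rw [← A.j.commutes c, hc, map_pow]
  rw [map_inv₀, e1, mul_pow, hr'w, inv_mul_cancel_left₀]
  exact pow_ne_zero _ ((map_ne_zero A.j).2 hβ0)

/-- **The unit equation for sections.** -/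
theorem sec_main (K : Type) [Field K] [NumberField K] (S : Finset (HeightOneSpectrum (𝓞 K)))
    (hS : Fintype.card (InfinitePlace K) + S.card ≤ 2)
    (F Ω M B : Type) [Field F] [Field Ω] [Field M] [Field B] [Algebra K F] [Algebra F Ω]
    [Algebra K Ω] [Algebra F M] [Algebra K M] [Algebra K B] [IsScalarTower K F Ω]
    [IsScalarTower K F M] [IsAlgClosure F Ω] [IsAlgClosure K B] (U : Set (ValuationSubring F))
    (hU : ∀ O ∈ U, ∀ c : K, algebraMap K F c ∈ O) (e : M →ₐ[F] Ω)
    (he : unramified F Ω U ≤ e.fieldRange) (s : GalSection K F M B)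
    (p : ∀ v : HeightOneSpectrum (𝓞 K), Plc K M (AlgebraicClosure (v.adicCompletion K)))
    (hp : ∀ v, s.GivenBy (v.adicCompletion K) (p v)) (α β : K) (hα : α ≠ 0) (hβ : β ≠ 0)
    (x y : F) (hxy : algebraMap K F α * x + algebraMap K F β * y = 1)
    (hxU : ∀ O ∈ U, x ∈ O ∧ x⁻¹ ∈ O) (hyU : ∀ O ∈ U, y ∈ O ∧ y⁻¹ ∈ O)
    (hx : ∀ v, ∃ c : v.adicCompletion K, c ≠ 0 ∧ (v ∉ S → Valued.v c = 1) ∧
      (p v).val (algebraMap F M x) (algebraMap _ (AlgebraicClosure (v.adicCompletion K)) c))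
    (hy : ∀ v, ∃ c : v.adicCompletion K, c ≠ 0 ∧ (v ∉ S → Valued.v c = 1) ∧
      (p v).val (algebraMap F M y) (algebraMap _ (AlgebraicClosure (v.adicCompletion K)) c)) :
    ∃ a b : K, IsSU S a ∧ IsSU S b ∧ α * a + β * b = 1 ∧
      (∀ v, (p v).val (algebraMap F M x) (algebraMap K _ a) ∧
        (p v).val (algebraMap F M y) (algebraMap K _ b)) ∧
      ∀ n : ℕ, 0 < n →
        (∃ w : M, algebraMap F M x = algebraMap K M a * w ^ n ∧ ∀ g, s.s g w = w) ∧
        ∃ w : M, algebraMap F M y = algebraMap K M b * w ^ n ∧ ∀ g, s.s g w = w := by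
  classical
  have hΩ1 : IsAlgClosed Ω := IsAlgClosure.isAlgClosed F
  have hΩ2 : Algebra.IsAlgebraic F Ω := IsAlgClosure.isAlgebraic
  have hMalg : Algebra.IsAlgebraic F M := Algebra.IsAlgebraic.of_injective e e.injective
  have hcv : ∀ v : HeightOneSpectrum (𝓞 K), CharZero (v.adicCompletion K) := fun v =>
    charZero_of_injective_algebraMap (algebraMap K (v.adicCompletion K)).injective
  set A := toSAct s with hA
  have hAF : ∀ τ (x : F), A.s τ (algebraMap F M x) = algebraMap F M x :=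
    fun τ x => (s.s ((eqv K B).autCongr τ)).commutes x
  have hgeo : ∀ v, GeoPlc A (p v) := fun v => geo_of_given (Ω := Ω) s (hp v)
  have hvb : ∀ v, ∀ (x : M) (_ : x ∈ fld A U e) (hx : x ∈ (p v).W),
      ∃ z : v.adicCompletion K,
        algebraMap (v.adicCompletion K) (AlgebraicClosure (v.adicCompletion K)) z =
          (p v).ρ ⟨x, hx⟩ := fun v x hxL hx => value_base A (hgeo v) (mem_fld.1 hxL).1 hx
  choose X hX0 hX1 hX using hx
  choose Y hY0 hY1 hY using hy
  obtain ⟨v0⟩ : Nonempty (HeightOneSpectrum (𝓞 K)) := by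
    obtain ⟨P, hP1, hP2⟩ := Ring.not_isField_iff_exists_prime.1 (RingOfIntegers.not_isField K)
    exact ⟨⟨P, hP2, hP1⟩⟩
  have nz : ∀ z : F, (∀ c : AlgebraicClosure (v0.adicCompletion K),
      (p v0).val (algebraMap F M z) c → c ≠ 0 → z ≠ 0) := by
    rintro z c hc hc0 rfl
    rw [map_zero] at hc
    exact hc0 (hc.unique Plc.val_zero)
  have hx0 : x ≠ 0 := nz x _ (hX v0) ((map_ne_zero _).2 (hX0 v0))
  have hy0 : y ≠ 0 := nz y _ (hY v0) ((map_ne_zero _).2 (hY0 v0))
  let x' : fld A U e := ⟨algebraMap F M x, F_mem hAF x⟩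
  let y' : fld A U e := ⟨algebraMap F M y, F_mem hAF y⟩
  have hxy' : algebraMap K (fld A U e) α * x' + algebraMap K (fld A U e) β * y' = 1 := by
    apply Subtype.ext
    change algebraMap K M α * algebraMap F M x + algebraMap K M β * algebraMap F M y = 1
    rw [IsScalarTower.algebraMap_apply K F M, IsScalarTower.algebraMap_apply K F M, ← map_mul,
      ← map_mul, ← map_add, hxy, map_one]
  have sub : ∀ (v) (z : fld A U e) (c : v.adicCompletion K),
      (p v).val (z : M) (algebraMap _ (AlgebraicClosure (v.adicCompletion K)) c) →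
      (subPlc (fld A U e) (p v) (hvb v)).val z c := by
    intro v z c hc
    have hmem : z ∈ (subPlc (fld A U e) (p v) (hvb v)).W := hc.mem
    obtain ⟨c', hc'⟩ := Plc.val_of_mem hmem
    have h1 := subPlc_val hc'
    have h2 := (algebraMap (v.adicCompletion K) (AlgebraicClosure (v.adicCompletion K))).injective
      (h1.unique hc)
    rwa [h2] at hc'
  obtain ⟨a, b, ha, hb, hab, hxa, hyb, hXa, hYb⟩ := main
    (fun v => subPlc (fld A U e) (p v) (hvb v)) hS hα hβ hxy'
    (fun n hn => kum_unit hAF hU he hx0 hxU hn) (fun n hn => kum_unit hAF hU he hy0 hyU hn)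
    (fun v => sub v x' (X v) (hX v)) hX0 hX1 (fun v => sub v y' (Y v) (hY v)) hY0 hY1
  refine ⟨a, b, ha, hb, hab, fun v => ⟨?_, ?_⟩, fun n hn => ⟨?_, ?_⟩⟩
  · have h1 := hX v
    rw [hXa, ← IsScalarTower.algebraMap_apply] at h1
    exact h1
  · have h1 := hY v
    rw [hYb, ← IsScalarTower.algebraMap_apply] at h1
    exact h1
  · obtain ⟨g, hg⟩ := hxa n hn
    refine ⟨g, congrArg Subtype.val hg, fun τ => ?_⟩
    have h1 := (mem_fld.1 g.2).1 ((eqv K B).autCongr.symm τ)
    have h2 : A.s ((eqv K B).autCongr.symm τ) (g : M) = s.s τ (g : M) := by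
      change s.s ((eqv K B).autCongr ((eqv K B).autCongr.symm τ)) (g : M) = _
      rw [MulEquiv.apply_symm_apply]
    rw [← h2]
    exact h1
  · obtain ⟨g, hg⟩ := hyb n hn
    refine ⟨g, congrArg Subtype.val hg, fun τ => ?_⟩
    have h1 := (mem_fld.1 g.2).1 ((eqv K B).autCongr.symm τ)
    have h2 : A.s ((eqv K B).autCongr.symm τ) (g : M) = s.s τ (g : M) := by
      change s.s ((eqv K B).autCongr ((eqv K B).autCongr.symm τ)) (g : M) = _
      rw [MulEquiv.apply_symm_apply]
    rw [← h2]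
    exact h1

end Pool.Agent.Y158.SI
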