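import Pool.Agent.Y158.SI.Gen2
import Pool.Agent.Y158.SI.Sec

/-!
# Sections and subvarieties of tori
-/

set_option autoImplicit false
set_option linter.unusedSectionVars false

namespace Pool.Agent.Y158.SI

open NumberField IsDedekindDomain WithZero Pool.Agent.TH954 Pool.Agent.W620.SC Pool.Agent.Y158.KL

/-- the `S`-integral points of the subvariety of the torus given by the polynomials in `I` -/
def PtS {K : Type} [Field K] [NumberField K] (S : Finset (HeightOneSpectrum (𝓞 K))) {n : ℕ}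
    (I : Finset (MvPolynomial (Fin n) K)) : Set (Fin n → K) :=
  {w | (∀ i, IsSU S (w i)) ∧ ∀ f ∈ I, MvPolynomial.eval w f = 0}

/-- **Sections and subvarieties of tori.** -/
theorem sec_mainN (K : Type) [Field K] [NumberField K] (S : Finset (HeightOneSpectrum (𝓞 K)))
    (hS : Fintype.card (InfinitePlace K) + S.card ≤ 2) (n : ℕ)
    (I : Finset (MvPolynomial (Fin n) K))
    (F Ω M B : Type) [Field F] [Field Ω] [Field M] [Field B] [Algebra K F] [Algebra F Ω]
    [Algebra K Ω] [Algebra F M] [Algebra K M] [Algebra K B] [IsScalarTower K F Ω]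
    [IsScalarTower K F M] [IsAlgClosure F Ω] [IsAlgClosure K B] (U : Set (ValuationSubring F))
    (hU : ∀ O ∈ U, ∀ c : K, algebraMap K F c ∈ O) (e : M →ₐ[F] Ω)
    (he : unramified F Ω U ≤ e.fieldRange) (s : GalSection K F M B)
    (p : ∀ v : HeightOneSpectrum (𝓞 K), Plc K M (AlgebraicClosure (v.adicCompletion K)))
    (hp : ∀ v, s.GivenBy (v.adicCompletion K) (p v))
    (x : Fin n → F) (hI : ∀ f ∈ I, MvPolynomial.aeval x f = 0)
    (hxU : ∀ O ∈ U, ∀ i, x i ∈ O ∧ (x i)⁻¹ ∈ O)
    (hx : ∀ v i, ∃ c : v.adicCompletion K, c ≠ 0 ∧ (v ∉ S → Valued.v c = 1) ∧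
      (p v).val (algebraMap F M (x i)) (algebraMap _ (AlgebraicClosure (v.adicCompletion K)) c)) :
    (∀ m : ℕ, 0 < m → ∃ w ∈ PtS S I, ∀ i, ∃ z : M,
      algebraMap F M (x i) = algebraMap K M (w i) * z ^ m ∧ ∀ g, s.s g z = z) ∧
    ((PtS S I).Finite → ∃ w ∈ PtS S I,
      (∀ v i, (p v).val (algebraMap F M (x i)) (algebraMap K _ (w i))) ∧
      ∀ m : ℕ, 0 < m → ∀ i, ∃ z : M,
        algebraMap F M (x i) = algebraMap K M (w i) * z ^ m ∧ ∀ g, s.s g z = z) := by
  classical
  have hΩ1 : IsAlgClosed Ω := IsAlgClosure.isAlgClosed F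
  have hΩ2 : Algebra.IsAlgebraic F Ω := IsAlgClosure.isAlgebraic
  have hMalg : Algebra.IsAlgebraic F M := Algebra.IsAlgebraic.of_injective e e.injective
  have hcv : ∀ v : HeightOneSpectrum (𝓞 K), CharZero (v.adicCompletion K) := fun v =>
    charZero_of_injective_algebraMap (algebraMap K (v.adicCompletion K)).injective
  set A := toSAct s with hA
  have hAF : ∀ τ (x : F), A.s τ (algebraMap F M x) = algebraMap F M x :=
    fun τ x => (s.s ((eqv K B).autCongr τ)).commutes x
  have hgeo : ∀ v, GeoPlc A (p v) := fun v => geo_of_given (Ω := Ω) s (hp v)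
  have hvb : ∀ v, ∀ (x : M) (_ : x ∈ fld A U e) (hx : x ∈ (p v).W),
      ∃ z : v.adicCompletion K,
        algebraMap (v.adicCompletion K) (AlgebraicClosure (v.adicCompletion K)) z =
          (p v).ρ ⟨x, hx⟩ := fun v x hxL hx => value_base A (hgeo v) (mem_fld.1 hxL).1 hx
  choose X hX0 hX1 hX using hx
  obtain ⟨v0⟩ : Nonempty (HeightOneSpectrum (𝓞 K)) := by
    obtain ⟨P, hP1, hP2⟩ := Ring.not_isField_iff_exists_prime.1 (RingOfIntegers.not_isField K)
    exact ⟨⟨P, hP2, hP1⟩⟩
  have nz : ∀ z : F, (∀ c : AlgebraicClosure (v0.adicCompletion K),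
      (p v0).val (algebraMap F M z) c → c ≠ 0 → z ≠ 0) := by
    rintro z c hc hc0 rfl
    rw [map_zero] at hc
    exact hc0 (hc.unique Plc.val_zero)
  have hx0 : ∀ i, x i ≠ 0 := fun i => nz (x i) _ (hX v0 i) ((map_ne_zero _).2 (hX0 v0 i))
  let x' : Fin n → fld A U e := fun i => ⟨algebraMap F M (x i), F_mem hAF (x i)⟩
  let φ : F →ₐ[K] fld A U e :=
    { toFun := fun z => ⟨algebraMap F M z, F_mem hAF z⟩
      map_one' := Subtype.ext (map_one _)
      map_mul' := fun a b => Subtype.ext (map_mul _ a b)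
      map_zero' := Subtype.ext (map_zero _)
      map_add' := fun a b => Subtype.ext (map_add _ a b)
      commutes' := fun c => Subtype.ext (IsScalarTower.algebraMap_apply K F M c).symm }
  have hI' : ∀ f ∈ I, MvPolynomial.aeval x' f = 0 := by
    intro f hf
    have h1 : MvPolynomial.aeval x' f = φ (MvPolynomial.aeval x f) :=
      (MvPolynomial.comp_aeval_apply x φ f).symm
    rw [h1, hI f hf, map_zero]
  have sub : ∀ (v) (z : fld A U e) (c : v.adicCompletion K),
      (p v).val (z : M) (algebraMap _ (AlgebraicClosure (v.adicCompletion K)) c) →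
      (subPlc (fld A U e) (p v) (hvb v)).val z c := by
    intro v z c hc
    have hmem : z ∈ (subPlc (fld A U e) (p v) (hvb v)).W := hc.mem
    obtain ⟨c', hc'⟩ := Plc.val_of_mem hmem
    have h1 := subPlc_val hc'
    have h2 := (algebraMap (v.adicCompletion K) (AlgebraicClosure (v.adicCompletion K))).injective
      (h1.unique hc)
    rwa [h2] at hc'
  have hDiv : ∀ i, Div K (x' i) := fun i m hm =>
    kum_unit hAF hU he (hx0 i) (fun O hO => hxU O hO i) hm
  have hfix : ∀ (z : fld A U e) (τ), s.s τ (z : M) = z := by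
    intro z τ
    have h1 := (mem_fld.1 z.2).1 ((eqv K B).autCongr.symm τ)
    have h2 : A.s ((eqv K B).autCongr.symm τ) (z : M) = s.s τ (z : M) := by
      change s.s ((eqv K B).autCongr ((eqv K B).autCongr.symm τ)) (z : M) = _
      rw [MulEquiv.apply_symm_apply]
    rw [← h2]
    exact h1
  have key : ∀ m : ℕ, 0 < m → ∃ w ∈ PtS S I, ∀ i, ∃ g : fld A U e,
      x' i = algebraMap K (fld A U e) (w i) * g ^ m := by
    intro m hm
    obtain ⟨w, hw, hwI, h⟩ := mainN (fun v => subPlc (fld A U e) (p v) (hvb v)) hS I hI' hDiv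
      (fun v i => sub v (x' i) (X v i) (hX v i)) hX0 (fun v hv i => hX1 v i hv) hm
    exact ⟨w, ⟨hw, hwI⟩, h⟩
  refine ⟨fun m hm => ?_, fun hfin => ?_⟩
  · obtain ⟨w, hw, h⟩ := key m hm
    refine ⟨w, hw, fun i => ?_⟩
    obtain ⟨g, hg⟩ := h i
    exact ⟨g, congrArg Subtype.val hg, fun τ => hfix g τ⟩
  · obtain ⟨w, hw, h⟩ := pigeon hfin
      (fun m w => ∀ i, ∃ g : fld A U e, x' i = algebraMap K (fld A U e) (w i) * g ^ m)
      (by
        rintro m n' w ⟨j, rfl⟩ h i
        obtain ⟨g, hg⟩ := h i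
        exact ⟨g ^ j, by rw [hg, ← pow_mul, mul_comm m j]⟩) key
    refine ⟨w, hw, fun v i => ?_, fun m hm i => ?_⟩
    · have h1 := value_eq (fun v => subPlc (fld A U e) (p v) (hvb v)) (hw.1 i).1
        (sub v (x' i) (X v i) (hX v i)) (hX0 v i) (fun m hm => h m hm i)
      have h2 := hX v i
      rw [h1, ← IsScalarTower.algebraMap_apply] at h2
      exact h2
    · obtain ⟨g, hg⟩ := h m hm i
      exact ⟨g, congrArg Subtype.val hg, fun τ => hfix g τ⟩

end Pool.Agent.Y158.SI
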