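import Pool.Agent.Y158.SI.Main

/-!
# The `S`-unit equation for rank at most one
-/

set_option autoImplicit false

namespace Pool.Agent.Y158.SI

open NumberField IsDedekindDomain

theorem unit_eq_finite {K : Type} [Field K] [NumberField K]
    {S : Finset (HeightOneSpectrum (𝓞 K))}
    (hS : Fintype.card (InfinitePlace K) + S.card ≤ 2) {α β : K} (hα : α ≠ 0) (hβ : β ≠ 0) :
    {i : K × K | IsSU S i.1 ∧ IsSU S i.2 ∧ α * i.1 + β * i.2 = 1}.Finite := by
  classical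
  obtain ⟨ε, hε, hgen⟩ := units_struct hS
  obtain ⟨w, hw, hord⟩ := exists_order K
  have f2 := finite_roots (K := K) hw
  by_cases hnt : Tor ε
  · have hall : ∀ u : K, IsSU S u → u ^ w = 1 := by
      intro u hu
      apply hord
      obtain ⟨n, m, hm, h⟩ := hgen u hu
      obtain ⟨m', hm', h'⟩ := hnt
      refine ⟨m * m', Nat.mul_pos hm hm', ?_⟩
      have e : u = u / ε ^ n * ε ^ n := by rw [div_mul_cancel₀ _ (zpow_ne_zero _ hε.1)]
      rw [e, mul_pow, pow_mul, h, one_pow, one_mul, ← zpow_natCast, ← zpow_mul, mul_comm n,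
        zpow_mul, zpow_natCast, mul_comm m m', pow_mul, h', one_pow, one_zpow]
    exact (f2.prod f2).subset fun i hi => ⟨hall _ hi.1, hall _ hi.2.1⟩
  · obtain ⟨D, hD⟩ := claim1 hS hε hnt hα hβ
    have f1 : (Set.Icc (-(D : ℤ)) D).Finite := Set.finite_Icc _ _
    refine (((f1.prod f2).prod (f1.prod f2)).image
      (fun i => (ε ^ i.1.1 * i.1.2, ε ^ i.2.1 * i.2.2))).subset ?_
    rintro ⟨s, s'⟩ ⟨hs, hs', h⟩
    obtain ⟨n, hn⟩ := hgen s hs
    obtain ⟨n', hn'⟩ := hgen s' hs'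
    obtain ⟨b1, b2⟩ := hD s s' n n' hn hn' h
    refine ⟨((n, s / ε ^ n), (n', s' / ε ^ n')), ⟨⟨?_, hord _ hn⟩, ⟨?_, hord _ hn'⟩⟩, ?_⟩
    · exact Set.mem_Icc.2 (abs_le.1 b1)
    · exact Set.mem_Icc.2 (abs_le.1 b2)
    · simp only [Prod.mk.injEq]
      exact ⟨mul_div_cancel₀ _ (zpow_ne_zero _ hε.1), mul_div_cancel₀ _ (zpow_ne_zero _ hε.1)⟩

end Pool.Agent.Y158.SI
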