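import Pool.Agent.Y158.KL.Cmp
import Pool.Agent.Y158.KL.Cls

/-!
# Powers of local units, and simultaneous approximation
-/

set_option autoImplicit false
set_option linter.unusedSectionVars false

namespace Pool.Agent.Y158.SI

open NumberField IsDedekindDomain WithZero Pool.Agent.Y158.KL

section val

variable {R Γ : Type*} [CommRing R] [LinearOrderedCommGroupWithZero Γ] (V : Valuation R Γ)

lemma V_pow_sub {x : R} (hx : V x ≤ 1) (m : ℕ) : V (x ^ m - 1) ≤ V (x - 1) := by
  have h1 : x ^ m - 1 = (∑ i ∈ Finset.range m, x ^ i) * (x - 1) := (geom_sum_mul x m).symm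
  rw [h1, map_mul]
  have h2 : V (∑ i ∈ Finset.range m, x ^ i) ≤ 1 :=
    V.map_sum_le fun i _ => by
      rw [map_pow]
      exact pow_le_one₀ zero_le hx
  calc V (∑ i ∈ Finset.range m, x ^ i) * V (x - 1) ≤ 1 * V (x - 1) := by gcongr
    _ = _ := one_mul _

end val

section valf

variable {C Γ : Type*} [Field C] [LinearOrderedCommGroupWithZero Γ] (V : Valuation C Γ)

lemma V_inv_sub {x : C} (hx : V x = 1) : V (x⁻¹ - 1) = V (x - 1) := by
  have hx0 : x ≠ 0 := by
    rintro rfl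
    rw [map_zero] at hx
    exact zero_ne_one hx
  have h1 : x⁻¹ - 1 = -(x⁻¹ * (x - 1)) := by
    field_simp
    ring
  rw [h1, Valuation.map_neg, map_mul, map_inv₀, hx, inv_one, one_mul]

lemma V_zpow_sub {x : C} (hx : V x = 1) (m : ℤ) : V (x ^ m - 1) ≤ V (x - 1) := by
  rcases m with m | m
  · rw [Int.ofNat_eq_natCast, zpow_natCast]
    exact V_pow_sub V hx.le m
  · rw [zpow_negSucc, V_inv_sub V (by rw [map_pow, hx, one_pow])]
    exact V_pow_sub V hx.le _

end valf

variable {K : Type*} [Field K] [NumberField K]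

/-- a common exponent for the local unit groups modulo `c` -/
theorem local_exp {c : 𝓞 K} (hc : c ≠ 0) : ∃ E : ℕ, 0 < E ∧
    ∀ (v : HeightOneSpectrum (𝓞 K)) (g : v.adicCompletion K), Vv v g = 1 →
      Vv v (g ^ E - 1) ≤ v.intValuation c := by
  classical
  have hbot : Ideal.span {c} ≠ ⊥ := by
    rw [Ne, Ideal.span_singleton_eq_bot]
    exact hc
  have hfin : Finite (𝓞 K ⧸ Ideal.span {c}) := Ideal.finiteQuotientOfFreeOfNeBot _ hbot
  obtain ⟨n, hn⟩ : ∃ n, n = Nat.card (𝓞 K ⧸ Ideal.span {c}) := ⟨_, rfl⟩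
  refine ⟨n.factorial, Nat.factorial_pos n, fun v g hg => ?_⟩
  obtain ⟨m, hm⟩ : ∃ m : ℕ, v.intValuation c = exp (-(m : ℤ)) := by
    rw [v.intValuation_if_neg hc]
    exact ⟨_, rfl⟩
  have happ : ∀ i : ℕ, ∃ a : 𝓞 K, Vv v (g ^ i -
      algebraMap K (v.adicCompletion K) (algebraMap (𝓞 K) K a)) ≤ v.intValuation c := by
    intro i
    rw [hm]
    exact near_int v (g ^ i) (by rw [map_pow, hg, one_pow]) m
  choose a ha using happ
  let f : Fin (n + 1) → 𝓞 K ⧸ Ideal.span {c} := fun i => Ideal.Quotient.mk _ (a i)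
  have hninj : ¬ Function.Injective f := by
    intro h
    have h1 := Nat.card_le_card_of_injective f h
    rw [Nat.card_eq_fintype_card, Fintype.card_fin, ← hn] at h1
    omega
  rw [Function.not_injective_iff] at hninj
  obtain ⟨i, j, hij, hne⟩ := hninj
  wlog hlt : i < j generalizing i j
  · exact this j i hij.symm hne.symm (lt_of_le_of_ne (not_lt.1 hlt) hne.symm)
  have h1 : c ∣ a i - a j := by
    rw [← Ideal.mem_span_singleton, ← Ideal.Quotient.eq]
    exact hij
  have h2 : Vv v (algebraMap K (v.adicCompletion K) (algebraMap (𝓞 K) K (a i - a j))) ≤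
      v.intValuation c := by
    rw [Vv_int]
    obtain ⟨b, hb⟩ := h1
    rw [hb, map_mul]
    calc v.intValuation c * v.intValuation b ≤ v.intValuation c * 1 := by
          gcongr
          exact v.intValuation_le_one b
      _ = _ := mul_one _
  have h3 : Vv v (g ^ (j : ℕ) - g ^ (i : ℕ)) ≤ v.intValuation c := by
    have e : g ^ (j : ℕ) - g ^ (i : ℕ) =
        (g ^ (j : ℕ) - algebraMap K (v.adicCompletion K) (algebraMap (𝓞 K) K (a j))) -
        (g ^ (i : ℕ) - algebraMap K (v.adicCompletion K) (algebraMap (𝓞 K) K (a i))) -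
        algebraMap K (v.adicCompletion K) (algebraMap (𝓞 K) K (a i - a j)) := by
      rw [map_sub, map_sub]
      ring
    rw [e]
    exact Valuation.map_sub_le _ (Valuation.map_sub_le _ (ha j) (ha i)) h2
  have hij' : (i : ℕ) < j := hlt
  have h4 : Vv v (g ^ ((j : ℕ) - i) - 1) ≤ v.intValuation c := by
    have e : g ^ (j : ℕ) - g ^ (i : ℕ) = g ^ (i : ℕ) * (g ^ ((j : ℕ) - i) - 1) := by
      rw [mul_sub, ← pow_add, Nat.add_sub_cancel' hij'.le, mul_one]
    rw [e, map_mul, map_pow, hg, one_pow, one_mul] at h3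
    exact h3
  have h5 : ((j : ℕ) - i) ∣ n.factorial :=
    Nat.dvd_factorial (by omega) (by have := j.2; omega)
  obtain ⟨q, hq⟩ := h5
  rw [hq, pow_mul]
  exact (V_pow_sub (Vv v) (by rw [map_pow, hg, one_pow]) q).trans h4

/-- an infinitely divisible element of the multiplicative group of a completion is trivial -/
theorem inf_div {v : HeightOneSpectrum (𝓞 K)} {z : v.adicCompletion K} (hz : z ≠ 0)
    (h : ∀ m : ℕ, 0 < m → ∃ g : v.adicCompletion K, z = g ^ m) : z = 1 := by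
  have hVz : Vv v z ≠ 0 := (Valuation.ne_zero_iff _).2 hz
  obtain ⟨a, ha⟩ := exists_exp hVz
  have ha0 : a = 0 := by
    by_contra hne
    obtain ⟨g, hg⟩ := h (a.natAbs + 1) (Nat.succ_pos _)
    have hg0 : g ≠ 0 := by
      rintro rfl
      rw [zero_pow (Nat.succ_ne_zero _)] at hg
      exact hz hg
    obtain ⟨b, hb⟩ := exists_exp ((Valuation.ne_zero_iff (Vv v)).2 hg0)
    have h1 := congrArg (Vv v) hg
    rw [map_pow, ha, hb, exp_pow, exp_inj] at h1
    have h2 : ((a.natAbs + 1 : ℕ) : ℤ) ∣ a := ⟨b, h1⟩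
    have h3 := Int.natAbs_dvd_natAbs.2 h2
    rw [Int.natAbs_natCast] at h3
    have := Nat.le_of_dvd (Int.natAbs_pos.2 hne) h3
    omega
  have hVz1 : Vv v z = 1 := by rw [ha, ha0, exp_zero]
  by_contra hne
  have hz1 : z - 1 ≠ 0 := sub_ne_zero.2 hne
  obtain ⟨b, hb⟩ := exists_exp ((Valuation.ne_zero_iff (Vv v)).2 hz1)
  obtain ⟨π, hπ⟩ := v.intValuation_exists_uniformizer
  have hπ0 : π ≠ 0 := by
    rintro rfl
    rw [map_zero] at hπ
    exact exp_ne_zero hπ.symm
  obtain ⟨E, hE, hEg⟩ := local_exp (K := K) (c := π ^ (b.natAbs + 1)) (pow_ne_zero _ hπ0)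
  obtain ⟨g, hg⟩ := h E hE
  have hg1 : Vv v g = 1 := by
    have h1 := congrArg (Vv v) hg
    rw [hVz1, map_pow] at h1
    have hg0 : Vv v g ≠ 0 := by
      intro h0
      rw [h0, zero_pow hE.ne'] at h1
      exact one_ne_zero h1
    obtain ⟨e, he⟩ := exists_exp hg0
    rw [he, exp_pow, ← exp_zero, exp_inj] at h1
    have : e = 0 := by
      rcases mul_eq_zero.1 h1.symm with h2 | h2
      · exact absurd h2 (by exact_mod_cast hE.ne')
      · exact h2
    rw [he, this, exp_zero]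
  have h2 := hEg v g hg1
  rw [← hg, hb, map_pow, hπ, exp_pow, exp_le_exp] at h2
  rw [Nat.cast_add, Nat.cast_one] at h2
  have h3 : -(b.natAbs : ℤ) ≤ b := by omega
  omega

/-- simultaneous approximation with denominator at most `16` -/
theorem dirichlet (a b : ℤ) {N : ℕ} (hN : 0 < N) : ∃ q : ℕ, 1 ≤ q ∧ q ≤ 16 ∧ ∃ A B : ℤ,
    4 * |q * a - A * N| ≤ N ∧ 4 * |q * b - B * N| ≤ N := by
  classical
  have hN' : (0 : ℤ) < N := by exact_mod_cast hN
  have hb : ∀ c : ℤ, 0 ≤ 4 * (c % N) / N ∧ 4 * (c % N) / N < 4 := by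
    intro c
    have h1 := Int.emod_nonneg c hN'.ne'
    have h2 := Int.emod_lt_of_pos c hN'
    refine ⟨Int.ediv_nonneg (by positivity) hN'.le, ?_⟩
    rw [Int.ediv_lt_iff_lt_mul hN']
    linarith
  let f : Fin 17 → Fin 4 × Fin 4 := fun j =>
    (⟨(4 * ((j : ℤ) * a % N) / N).toNat, by have := hb ((j : ℤ) * a); omega⟩,
      ⟨(4 * ((j : ℤ) * b % N) / N).toNat, by have := hb ((j : ℤ) * b); omega⟩)
  have hninj : ¬ Function.Injective f := by
    intro h
    have h1 := Fintype.card_le_of_injective f h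
    simp at h1
  rw [Function.not_injective_iff] at hninj
  obtain ⟨i, j, hij, hne⟩ := hninj
  wlog hlt : i < j generalizing i j
  · exact this j i hij.symm hne.symm (lt_of_le_of_ne (not_lt.1 hlt) hne.symm)
  have hij' : (i : ℕ) < j := hlt
  have hj := j.2
  have key : ∀ c : ℤ, (4 * ((i : ℤ) * c % N) / N).toNat = (4 * ((j : ℤ) * c % N) / N).toNat →
      ∃ A : ℤ, 4 * |((j : ℕ) - (i : ℕ) : ℕ) * c - A * N| ≤ N := by
    intro c hc
    have h1 := hb ((i : ℤ) * c)
    have h2 := hb ((j : ℤ) * c)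
    have h3 : 4 * ((i : ℤ) * c % N) / N = 4 * ((j : ℤ) * c % N) / N := by omega
    refine ⟨(j : ℤ) * c / N - (i : ℤ) * c / N, ?_⟩
    have e1 := Int.emod_add_mul_ediv ((i : ℤ) * c) N
    have e2 := Int.emod_add_mul_ediv ((j : ℤ) * c) N
    have e3 := Int.emod_add_mul_ediv (4 * ((i : ℤ) * c % N)) N
    have e4 := Int.emod_add_mul_ediv (4 * ((j : ℤ) * c % N)) N
    have l1 := Int.emod_nonneg (4 * ((i : ℤ) * c % N)) hN'.ne'
    have l2 := Int.emod_lt_of_pos (4 * ((i : ℤ) * c % N)) hN'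
    have l3 := Int.emod_nonneg (4 * ((j : ℤ) * c % N)) hN'.ne'
    have l4 := Int.emod_lt_of_pos (4 * ((j : ℤ) * c % N)) hN'
    have e5 : (((j : ℕ) - (i : ℕ) : ℕ) : ℤ) * c - ((j : ℤ) * c / N - (i : ℤ) * c / N) * N =
        (j : ℤ) * c % N - (i : ℤ) * c % N := by
      rw [Nat.cast_sub hij'.le]
      linear_combination e1 - e2
    rw [e5]
    have e6 : 4 * ((j : ℤ) * c % N) - 4 * ((i : ℤ) * c % N) =
        (4 * ((j : ℤ) * c % N)) % N - (4 * ((i : ℤ) * c % N)) % N := by
      rw [h3] at e3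
      linear_combination e3 - e4
    have e7 : 4 * |(j : ℤ) * c % N - (i : ℤ) * c % N| =
        |4 * ((j : ℤ) * c % N) - 4 * ((i : ℤ) * c % N)| := by
      rw [← mul_sub, abs_mul]
      rfl
    rw [e7, e6, abs_le]
    constructor <;> linarith
  have h1 := congrArg (fun p => (p.1 : ℕ)) hij
  have h2 := congrArg (fun p => (p.2 : ℕ)) hij
  obtain ⟨A, hA⟩ := key a h1
  obtain ⟨B, hB⟩ := key b h2
  exact ⟨(j : ℕ) - i, by omega, by omega, A, B, hA, hB⟩

end Pool.Agent.Y158.SI
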