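import Pool.Agent.Y158.SI.Size
import Pool.Agent.Y158.SI.Loc
import Pool.Agent.Y158.SI.Cl
import Pool.Agent.Y158.KL.Pl

/-!
# The unit equation in a field with places in all completions
-/

set_option autoImplicit false
set_option linter.unusedSectionVars false

namespace Pool.Agent.Y158.SI

open NumberField IsDedekindDomain WithZero Pool.Agent.TH954 Pool.Agent.Y158.KL

lemma pigeon {ι : Type*} {F : Set ι} (hF : F.Finite) (P : ℕ → ι → Prop)
    (hmono : ∀ m n i, m ∣ n → P n i → P m i) (h : ∀ m, 0 < m → ∃ i ∈ F, P m i) :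
    ∃ i ∈ F, ∀ m, 0 < m → P m i := by
  classical
  by_contra hcon
  push Not at hcon
  have h1 : ∀ i : ι, ∃ m, 0 < m ∧ (i ∈ F → ¬ P m i) := by
    intro i
    by_cases hi : i ∈ F
    · obtain ⟨m, hm, h⟩ := hcon i hi
      exact ⟨m, hm, fun _ => h⟩
    · exact ⟨1, one_pos, fun h => absurd h hi⟩
  choose f hf0 hf using h1
  obtain ⟨i, hi, hP⟩ := h (∏ i ∈ hF.toFinset, f i) (Finset.prod_pos fun i _ => hf0 i)
  exact hf i hi (hmono _ _ i (Finset.dvd_prod_of_mem f (hF.mem_toFinset.2 hi)) hP)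

section num

variable {K : Type*} [Field K] [NumberField K]

lemma exists_num {z : K} (hz : z ≠ 0) : ∃ c : 𝓞 K, c ≠ 0 ∧
    ∀ v : HeightOneSpectrum (𝓞 K), v.intValuation c ≤ v.valuation K z := by
  obtain ⟨a, b, hb, rfl⟩ := IsFractionRing.div_surjective (A := 𝓞 K) z
  have hb0 : b ≠ 0 := nonZeroDivisors.ne_zero hb
  have ha0 : a ≠ 0 := by
    rintro rfl
    rw [map_zero, zero_div] at hz
    exact hz rfl
  refine ⟨a, ha0, fun v => ?_⟩
  rw [map_div₀, v.valuation_of_algebraMap, v.valuation_of_algebraMap]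
  have hvb : v.intValuation b ≠ 0 := v.intValuation_ne_zero b hb0
  rw [le_div_iff₀ (zero_lt_iff.2 hvb)]
  calc v.intValuation a * v.intValuation b ≤ v.intValuation a * 1 := by
        gcongr
        exact v.intValuation_le_one b
    _ = _ := mul_one _

lemma exists_den (α : K) : ∃ d : 𝓞 K, d ≠ 0 ∧
    ∀ v : HeightOneSpectrum (𝓞 K), v.valuation K (algebraMap (𝓞 K) K d * α) ≤ 1 := by
  obtain ⟨a, b, hb, rfl⟩ := IsFractionRing.div_surjective (A := 𝓞 K) α
  have hb0 : b ≠ 0 := nonZeroDivisors.ne_zero hb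
  have hbK : algebraMap (𝓞 K) K b ≠ 0 :=
    (map_ne_zero_iff _ (FaithfulSMul.algebraMap_injective (𝓞 K) K)).2 hb0
  refine ⟨b, hb0, fun v => ?_⟩
  rw [mul_div_cancel₀ _ hbK]
  exact v.valuation_le_one a

lemma finite_roots {w : ℕ} (hw : 0 < w) : {z : K | z ^ w = 1}.Finite := by
  refine (Polynomial.rootSet_finite (Polynomial.X ^ w - 1 : Polynomial K) K).subset ?_
  intro z hz
  rw [Polynomial.mem_rootSet]
  refine ⟨Polynomial.X_pow_sub_C_ne_zero hw 1, ?_⟩
  rw [map_sub, map_pow, Polynomial.aeval_X, map_one, sub_eq_zero]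
  exact hz

end num

variable {K L : Type} [Field K] [NumberField K] [Field L] [Algebra K L]
  {S : Finset (HeightOneSpectrum (𝓞 K))}

/-- the element `x` is divisible up to constants -/
def Div (K : Type) {L : Type} [Field K] [Field L] [Algebra K L] (x : L) : Prop :=
  ∀ m : ℕ, 0 < m → ∃ c : K, c ≠ 0 ∧ ∃ g : L, x = algebraMap K L c * g ^ m

lemma value_pow {v : HeightOneSpectrum (𝓞 K)} {p : Plc K L (v.adicCompletion K)} {x g : L} {u : K}
    (hu : u ≠ 0) {m : ℕ} (hm : 0 < m) (h : x = algebraMap K L u * g ^ m) {ξ : v.adicCompletion K}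
    (hξ : p.val x ξ) : ∃ γ, p.val g γ ∧ ξ = algebraMap K (v.adicCompletion K) u * γ ^ m := by
  have huC : algebraMap K (v.adicCompletion K) u ≠ 0 := (map_ne_zero _).2 hu
  have huL : algebraMap K L u ≠ 0 := (map_ne_zero _).2 hu
  have h1 : p.val (g ^ m) ((algebraMap K (v.adicCompletion K) u)⁻¹ * ξ) := by
    have h2 := ((Plc.val_alg (pl := p) u).inv huC).mul hξ
    rwa [h, inv_mul_cancel_left₀ huL] at h2
  obtain ⟨γ, hγ⟩ := Plc.val_of_mem (Plc.mem_of_pow_mem hm h1.mem)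
  refine ⟨γ, hγ, ?_⟩
  have h3 := (hγ.pow m).unique h1
  rw [h3, mul_inv_cancel_left₀ huC]

variable (p : ∀ v : HeightOneSpectrum (𝓞 K), Plc K L (v.adicCompletion K))

/-- Step 1 -/
theorem step1 {x : L} (hk : Div K x) {X : ∀ v : HeightOneSpectrum (𝓞 K), v.adicCompletion K}
    (hX : ∀ v, (p v).val x (X v)) (hX1 : ∀ v ∉ S, Vv v (X v) = 1) {m : ℕ} (hm : 0 < m) :
    ∃ u : K, IsSU S u ∧ ∃ g : L, x = algebraMap K L u * g ^ m := by
  have hh : 0 < classNumber K := Fintype.card_pos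
  obtain ⟨c, hc, g, hg⟩ := hk (classNumber K * m) (Nat.mul_pos hh hm)
  obtain ⟨u, t, hu, ht, hct⟩ := split_power (S := S) hm hc (by
    intro v hv
    obtain ⟨γ, hγ, h1⟩ := value_pow hc (Nat.mul_pos hh hm) hg (hX v)
    have h2 := congrArg (Vv v) h1
    rw [hX1 v hv, map_mul, map_pow, Vv_coe] at h2
    refine ⟨(Vv v γ)⁻¹, ?_⟩
    rw [inv_pow]
    exact eq_inv_of_mul_eq_one_left h2.symm)
  refine ⟨u, hu, algebraMap K L t * g ^ classNumber K, ?_⟩
  rw [hg, hct, map_mul, map_pow, mul_pow, ← pow_mul, mul_assoc]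

lemma V_prod_exp {v : HeightOneSpectrum (𝓞 K)} {g : v.adicCompletion K} (hg : Vv v g = 1) {E E' : ℕ}
    (hE : E ∣ E') {τ : WithZero (Multiplicative ℤ)} (h : Vv v (g ^ E - 1) ≤ τ) :
    Vv v (g ^ E' - 1) ≤ τ := by
  obtain ⟨q, rfl⟩ := hE
  rw [pow_mul]
  exact (V_pow_sub (Vv v) (by rw [map_pow, hg, one_pow]) q).trans h

/-- Step 2 -/
theorem step2 (hS : Fintype.card (InfinitePlace K) + S.card ≤ 2) {ε : K} (hε : IsSU S ε)
    (hgen : ∀ u, IsSU S u → ∃ n : ℤ, Tor (u / ε ^ n)) (hnt : ¬ Tor ε) {α β : K} {x y : L}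
    (hxy : algebraMap K L α * x + algebraMap K L β * y = 1) (hx : Div K x) (hy : Div K y)
    {X Y : ∀ v : HeightOneSpectrum (𝓞 K), v.adicCompletion K}
    (hX : ∀ v, (p v).val x (X v)) (hX1 : ∀ v ∉ S, Vv v (X v) = 1)
    (hY : ∀ v, (p v).val y (Y v)) (hY1 : ∀ v ∉ S, Vv v (Y v) = 1) {M : ℕ} (hM : 0 < M) :
    ∃ w w' : K, IsSU S w ∧ IsSU S w' ∧ α * w + β * w' = 1 ∧
      (∃ g : L, x = algebraMap K L w * g ^ M) ∧ ∃ g : L, y = algebraMap K L w' * g ^ M := by
  classical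
  -- the denominator
  obtain ⟨d1, hd1, hα⟩ := exists_den α
  obtain ⟨d2, hd2, hβ⟩ := exists_den β
  obtain ⟨d, hd⟩ : ∃ d : K, d = algebraMap (𝓞 K) K (d1 * d2) := ⟨_, rfl⟩
  have hd0 : d ≠ 0 := by
    rw [hd]
    exact (map_ne_zero_iff _ (FaithfulSMul.algebraMap_injective (𝓞 K) K)).2 (mul_ne_zero hd1 hd2)
  have hdα : ∀ v : HeightOneSpectrum (𝓞 K), v.valuation K (d * α) ≤ 1 := by
    intro v
    have e : d * α = algebraMap (𝓞 K) K d2 * (algebraMap (𝓞 K) K d1 * α) := by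
      rw [hd, map_mul]
      ring
    rw [e, map_mul]
    exact mul_le_one' (v.valuation_le_one d2) (hα v)
  have hdβ : ∀ v : HeightOneSpectrum (𝓞 K), v.valuation K (d * β) ≤ 1 := by
    intro v
    have e : d * β = algebraMap (𝓞 K) K d1 * (algebraMap (𝓞 K) K d2 * β) := by
      rw [hd, map_mul]
      ring
    rw [e, map_mul]
    exact mul_le_one' (v.valuation_le_one d1) (hβ v)
  have hd1' : ∀ v : HeightOneSpectrum (𝓞 K), v.valuation K d ≤ 1 := fun v => by
    rw [hd]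
    exact v.valuation_le_one _
  obtain ⟨k0, hk0⟩ := claim2 hS hε hnt α β d hd0
  obtain ⟨N, hN⟩ : ∃ N : ℕ, N = M * Nat.factorial 16 * (k0 + 1) := ⟨_, rfl⟩
  have hNpos : 0 < N := by
    rw [hN]
    exact Nat.mul_pos (Nat.mul_pos hM (Nat.factorial_pos _)) (Nat.succ_pos _)
  have hdiv : ∀ q : ℕ, 1 ≤ q → q ≤ 16 → ∃ k : ℕ, N = k * q ∧ M ∣ k ∧ k0 ≤ k ∧ 0 < k := by
    intro q h1 h2
    obtain ⟨j, hj⟩ := Nat.dvd_factorial h1 h2
    have hj0 : 0 < j := by
      rcases Nat.eq_zero_or_pos j with rfl | h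
      · rw [mul_zero] at hj
        exact absurd hj (Nat.factorial_pos 16).ne'
      · exact h
    refine ⟨M * j * (k0 + 1), ?_, ?_, ?_, ?_⟩
    · rw [hN, hj]
      ring
    · rw [mul_assoc]
      exact Dvd.intro _ rfl
    · calc k0 ≤ k0 + 1 := Nat.le_succ _
        _ ≤ M * j * (k0 + 1) := Nat.le_mul_of_pos_left _ (Nat.mul_pos hM hj0)
    · exact Nat.mul_pos (Nat.mul_pos hM hj0) (Nat.succ_pos _)
  have hne : ∀ k : ℕ, 0 < k → ε ^ k - 1 ≠ 0 := fun k hk h => hnt ⟨k, hk, sub_eq_zero.1 h⟩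
  have hEx : ∀ q : ℕ, ∃ E : ℕ, 0 < E ∧ (1 ≤ q → q ≤ 16 → ∀ k : ℕ, N = k * q →
      ∀ (v : HeightOneSpectrum (𝓞 K)) (g : v.adicCompletion K), Vv v g = 1 →
        Vv v (g ^ E - 1) ≤ v.valuation K (ε ^ k - 1)) := by
    intro q
    by_cases hq : 1 ≤ q ∧ q ≤ 16
    · obtain ⟨k, hk, -, -, hkpos⟩ := hdiv q hq.1 hq.2
      obtain ⟨c, hc, hcv⟩ := exists_num (hne k hkpos)
      obtain ⟨E, hE, h⟩ := local_exp hc
      refine ⟨E, hE, fun _ _ k' hk' v g hg => ?_⟩
      have : k' = k := Nat.eq_of_mul_eq_mul_right hq.1 (hk'.symm.trans hk)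
      rw [this]
      exact (h v g hg).trans (hcv v)
    · exact ⟨1, one_pos, fun h1 h2 => absurd ⟨h1, h2⟩ hq⟩
  choose Eq hEq0 hEq using hEx
  obtain ⟨E, hE⟩ : ∃ E : ℕ, E = ∏ q ∈ Finset.range 17, Eq q := ⟨_, rfl⟩
  have hEpos : 0 < E := by
    rw [hE]
    exact Finset.prod_pos fun q _ => hEq0 q
  obtain ⟨u, hu, g, hg⟩ := step1 p hx hX hX1 (Nat.mul_pos hNpos hEpos)
  obtain ⟨u', hu', g', hg'⟩ := step1 p hy hY hY1 (Nat.mul_pos hNpos hEpos)
  obtain ⟨a, ha⟩ := hgen u hu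
  obtain ⟨b, hb⟩ := hgen u' hu'
  obtain ⟨q, hq1, hq2, A, B, hA, hB⟩ := dirichlet a b hNpos
  obtain ⟨k, hk, hMk, hk0k, hkpos⟩ := hdiv q hq1 hq2
  have hqE : Eq q ∣ E := by
    rw [hE]
    exact Finset.dvd_prod_of_mem Eq (Finset.mem_range.2 (by omega))
  have hε0 : ε ≠ 0 := hε.1
  have habs : ∀ a A : ℤ, 4 * |(q : ℤ) * a - A * N| ≤ N → 4 * |a - A * k| ≤ k := by
    intro a A h
    have hq0 : (0 : ℤ) < q := by exact_mod_cast hq1
    have e : (q : ℤ) * a - A * N = q * (a - A * k) := by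
      rw [hk]
      push_cast
      ring
    rw [e, abs_mul, abs_of_pos hq0, hk] at h
    push_cast at h
    have h2 : (q : ℤ) * (4 * |a - A * k|) ≤ q * k := by linarith
    exact le_of_mul_le_mul_left h2 hq0
  -- the general reduction
  have red : ∀ (z h : L) (s : K) (c C : ℤ) (Z : ∀ v : HeightOneSpectrum (𝓞 K), v.adicCompletion K),
      IsSU S s → Tor (s / ε ^ c) → z = algebraMap K L s * h ^ (N * E) →
      (∀ v, (p v).val z (Z v)) → (∀ v ∉ S, Vv v (Z v) = 1) →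
      ∃ w : K, IsSU S w ∧ Tor (w / ε ^ (c - C * k)) ∧ (∃ g : L, z = algebraMap K L w * g ^ M) ∧
        ∀ v ∉ S, Vv v (Z v - algebraMap K (v.adicCompletion K) w) ≤ v.valuation K (ε ^ k - 1) := by
    intro z h s c C Z hs hsc hz hZ hZ1
    refine ⟨s * ε ^ (-(C * k)), hs.mul (hε.zpow _), ?_, ?_, ?_⟩
    · have e : s * ε ^ (-(C * k)) / ε ^ (c - C * k) = s / ε ^ c := by
        rw [sub_eq_add_neg, zpow_add₀ hε0, mul_div_mul_right _ _ (zpow_ne_zero _ hε0)]
      rw [e]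
      exact hsc
    · obtain ⟨j, hj⟩ := hMk
      refine ⟨(algebraMap K L ε ^ C * h ^ (q * E)) ^ j, ?_⟩
      have hεL : algebraMap K L ε ≠ 0 := (map_ne_zero _).2 hε0
      have e1 : ((algebraMap K L ε ^ C * h ^ (q * E)) ^ j) ^ M =
          algebraMap K L ε ^ (C * k) * h ^ (N * E) := by
        rw [← pow_mul, mul_comm j M, ← hj, mul_pow, ← pow_mul, zpow_mul, zpow_natCast, hk]
        congr 2
        ring
      rw [e1, map_mul, map_zpow₀, zpow_neg, hz]
      field_simp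
    · intro v hv
      obtain ⟨γ, hγ, h1⟩ := value_pow hs.1 (Nat.mul_pos hNpos hEpos) hz (hZ v)
      have hVs : Vv v (algebraMap K (v.adicCompletion K) s) = 1 := by rw [Vv_coe, hs.2 v hv]
      have hVγ : Vv v γ = 1 := by
        have h2 := congrArg (Vv v) h1
        rw [hZ1 v hv, map_mul, hVs, one_mul, map_pow] at h2
        exact wz_pow_eq_one (Nat.mul_pos hNpos hEpos) h2.symm
      have hVε : Vv v (algebraMap K (v.adicCompletion K) ε) = 1 := by rw [Vv_coe, hε.2 v hv]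
      have hεC : algebraMap K (v.adicCompletion K) ε ≠ 0 := (map_ne_zero _).2 hε0
      obtain ⟨e, he⟩ : ∃ e, e = algebraMap K (v.adicCompletion K) ε := ⟨_, rfl⟩
      rw [← he] at hVε hεC
      have e1 : Z v - algebraMap K (v.adicCompletion K) (s * ε ^ (-(C * k))) =
          algebraMap K (v.adicCompletion K) s *
            ((γ ^ (N * E) - 1) - ((e ^ k) ^ (-C) - 1)) := by
        rw [h1, map_mul, map_zpow₀, ← he]
        have : e ^ (-(C * k)) = (e ^ k) ^ (-C) := by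
          rw [← zpow_natCast e k, ← zpow_mul]
          congr 1
          ring
        rw [this]
        ring
      rw [e1, map_mul, hVs, one_mul]
      refine Valuation.map_sub_le _ ?_ ?_
      · have h3 : Vv v (γ ^ N) = 1 := by rw [map_pow, hVγ, one_pow]
        rw [pow_mul]
        exact V_prod_exp h3 hqE (hEq q hq1 hq2 k hk v _ h3)
      · refine (V_zpow_sub (Vv v) (by rw [map_pow, hVε, one_pow]) _).trans ?_
        have h5 : algebraMap K (v.adicCompletion K) (ε ^ k - 1) = e ^ k - 1 := by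
          rw [map_sub, map_pow, map_one, ← he]
        rw [← Vv_coe, h5]
  obtain ⟨w, hw, hwt, hwx, hwv⟩ := red x g u a A X hu ha hg hX hX1
  obtain ⟨w', hw', hwt', hwy, hwv'⟩ := red y g' u' b B Y hu' hb hg' hY hY1
  refine ⟨w, w', hw, hw', ?_, hwx, hwy⟩
  refine hk0 k hk0k w w' _ _ hwt hwt' (habs a A hA) (habs b B hB) fun v hv => ?_
  rw [← Vv_coe]
  have hloc : algebraMap K (v.adicCompletion K) α * X v +
      algebraMap K (v.adicCompletion K) β * Y v = 1 := by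
    have h1 := ((Plc.val_alg (pl := p v) α).mul (hX v)).add ((Plc.val_alg (pl := p v) β).mul (hY v))
    rw [hxy] at h1
    exact h1.unique Plc.val_one
  have e : algebraMap K (v.adicCompletion K) (d * (α * w + β * w' - 1)) =
      -(algebraMap K (v.adicCompletion K) (d * α) *
          (X v - algebraMap K (v.adicCompletion K) w) +
        algebraMap K (v.adicCompletion K) (d * β) *
          (Y v - algebraMap K (v.adicCompletion K) w')) := by
    simp only [map_mul, map_sub, map_add, map_one]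
    linear_combination algebraMap K (v.adicCompletion K) d * hloc
  rw [e, Valuation.map_neg]
  refine Valuation.map_add_le _ ?_ ?_
  · rw [map_mul, Vv_coe]
    calc v.valuation K (d * α) * Vv v (X v - algebraMap K (v.adicCompletion K) w)
        ≤ 1 * v.valuation K (ε ^ k - 1) := mul_le_mul' (hdα v) (hwv v hv)
      _ = _ := one_mul _
  · rw [map_mul, Vv_coe]
    calc v.valuation K (d * β) * Vv v (Y v - algebraMap K (v.adicCompletion K) w')
        ≤ 1 * v.valuation K (ε ^ k - 1) := mul_le_mul' (hdβ v) (hwv' v hv)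
      _ = _ := one_mul _

/-- from divisibility to the value -/
lemma value_eq {v : HeightOneSpectrum (𝓞 K)} {x : L} {u : K} (hu : u ≠ 0)
    {ξ : v.adicCompletion K} (hξ : (p v).val x ξ) (hξ0 : ξ ≠ 0)
    (h : ∀ m : ℕ, 0 < m → ∃ g : L, x = algebraMap K L u * g ^ m) :
    ξ = algebraMap K (v.adicCompletion K) u := by
  have huC : algebraMap K (v.adicCompletion K) u ≠ 0 := (map_ne_zero _).2 hu
  have h1 : ξ / algebraMap K (v.adicCompletion K) u = 1 := by
    refine inf_div (div_ne_zero hξ0 huC) fun m hm => ?_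
    obtain ⟨g, hg⟩ := h m hm
    obtain ⟨γ, -, h2⟩ := value_pow hu hm hg hξ
    refine ⟨γ, ?_⟩
    rw [h2, mul_div_cancel_left₀ _ huC]
  exact (div_eq_one_iff_eq huC).1 h1

theorem main (hS : Fintype.card (InfinitePlace K) + S.card ≤ 2) {α β : K} (hα : α ≠ 0)
    (hβ : β ≠ 0) {x y : L}
    (hxy : algebraMap K L α * x + algebraMap K L β * y = 1) (hx : Div K x) (hy : Div K y)
    {X Y : ∀ v : HeightOneSpectrum (𝓞 K), v.adicCompletion K}
    (hX : ∀ v, (p v).val x (X v)) (hX0 : ∀ v, X v ≠ 0) (hX1 : ∀ v ∉ S, Vv v (X v) = 1)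
    (hY : ∀ v, (p v).val y (Y v)) (hY0 : ∀ v, Y v ≠ 0) (hY1 : ∀ v ∉ S, Vv v (Y v) = 1) :
    ∃ u u' : K, IsSU S u ∧ IsSU S u' ∧ α * u + β * u' = 1 ∧
      (∀ m : ℕ, 0 < m → ∃ g : L, x = algebraMap K L u * g ^ m) ∧
      (∀ m : ℕ, 0 < m → ∃ g : L, y = algebraMap K L u' * g ^ m) ∧
      (∀ v, X v = algebraMap K (v.adicCompletion K) u) ∧
      ∀ v, Y v = algebraMap K (v.adicCompletion K) u' := by
  classical
  obtain ⟨ε, hε, hgen⟩ := units_struct hS
  obtain ⟨w, hw, hord⟩ := exists_order K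
  have mono : ∀ (z : L) (s : K) (m n : ℕ), m ∣ n → (∃ g : L, z = algebraMap K L s * g ^ n) →
      ∃ g : L, z = algebraMap K L s * g ^ m := by
    rintro z s m n ⟨j, rfl⟩ ⟨g, hg⟩
    exact ⟨g ^ j, by rw [hg, ← pow_mul, mul_comm m j]⟩
  by_cases hnt : Tor ε
  · -- rank zero
    have hall : ∀ u : K, IsSU S u → u ^ w = 1 := by
      intro u hu
      apply hord
      obtain ⟨n, m, hm, h⟩ := hgen u hu
      obtain ⟨m', hm', h'⟩ := hnt
      refine ⟨m * m', Nat.mul_pos hm hm', ?_⟩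
      have e : u = u / ε ^ n * ε ^ n := by rw [div_mul_cancel₀ _ (zpow_ne_zero _ hε.1)]
      rw [e, mul_pow, pow_mul, h, one_pow, one_mul, ← zpow_natCast, ← zpow_mul, mul_comm n,
        zpow_mul, zpow_natCast, mul_comm m m', pow_mul, h', one_pow, one_zpow]
    have fin : ∀ (z : L), Div K z →
        ∀ (Z : ∀ v : HeightOneSpectrum (𝓞 K), v.adicCompletion K), (∀ v, (p v).val z (Z v)) →
        (∀ v ∉ S, Vv v (Z v) = 1) → ∃ u : K, IsSU S u ∧
          ∀ m : ℕ, 0 < m → ∃ g : L, z = algebraMap K L u * g ^ m := by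
      intro z hz Z hZ hZ1
      obtain ⟨u, hu, h⟩ := pigeon (F := {u : K | IsSU S u ∧ u ^ w = 1})
        ((finite_roots (K := K) hw).subset fun u hu => hu.2)
        (fun m u => ∃ g : L, z = algebraMap K L u * g ^ m) (fun m n u => mono z u m n) (by
          intro m hm
          obtain ⟨u, hu, g, hg⟩ := step1 p hz hZ hZ1 hm
          exact ⟨u, ⟨hu, hall u hu⟩, g, hg⟩)
      exact ⟨u, hu.1, h⟩
    obtain ⟨u, hu, hux⟩ := fin x hx X hX hX1
    obtain ⟨u', hu', huy⟩ := fin y hy Y hY hY1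
    have hXu : ∀ v, X v = algebraMap K (v.adicCompletion K) u := fun v =>
      value_eq p hu.1 (hX v) (hX0 v) hux
    have hYu : ∀ v, Y v = algebraMap K (v.adicCompletion K) u' := fun v =>
      value_eq p hu'.1 (hY v) (hY0 v) huy
    refine ⟨u, u', hu, hu', ?_, hux, huy, hXu, hYu⟩
    obtain ⟨P, hP1, hP2⟩ := Ring.not_isField_iff_exists_prime.1 (RingOfIntegers.not_isField K)
    let v : HeightOneSpectrum (𝓞 K) := ⟨P, hP2, hP1⟩
    apply (algebraMap K (v.adicCompletion K)).injective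
    have h1 := ((Plc.val_alg (pl := p v) α).mul (hX v)).add ((Plc.val_alg (pl := p v) β).mul (hY v))
    rw [hxy] at h1
    have h2 := h1.unique Plc.val_one
    rw [hXu, hYu] at h2
    rw [map_add, map_mul, map_mul, map_one]
    exact h2
  · obtain ⟨D, hD⟩ := claim1 hS hε hnt hα hβ
    have hfin : {i : K × K | IsSU S i.1 ∧ IsSU S i.2 ∧ α * i.1 + β * i.2 = 1}.Finite := by
      have f1 : (Set.Icc (-(D : ℤ)) D).Finite := Set.finite_Icc _ _
      have f2 := finite_roots (K := K) hw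
      refine (((f1.prod f2).prod (f1.prod f2)).image
        (fun i => (ε ^ i.1.1 * i.1.2, ε ^ i.2.1 * i.2.2))).subset ?_
      rintro ⟨s, s'⟩ ⟨hs, hs', h⟩
      obtain ⟨n, hn⟩ := hgen s hs
      obtain ⟨n', hn'⟩ := hgen s' hs'
      obtain ⟨b1, b2⟩ := hD s s' n n' hn hn' h
      refine ⟨((n, s / ε ^ n), (n', s' / ε ^ n')), ⟨⟨?_, hord _ hn⟩, ⟨?_, hord _ hn'⟩⟩, ?_⟩
      · exact Set.mem_Icc.2 (abs_le.1 b1)
      · exact Set.mem_Icc.2 (abs_le.1 b2)
      · simp only [Prod.mk.injEq]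
        exact ⟨mul_div_cancel₀ _ (zpow_ne_zero _ hε.1), mul_div_cancel₀ _ (zpow_ne_zero _ hε.1)⟩
    obtain ⟨⟨u, u'⟩, ⟨hu, hu', he⟩, h⟩ := pigeon hfin
      (fun m i => (∃ g : L, x = algebraMap K L i.1 * g ^ m) ∧
        ∃ g : L, y = algebraMap K L i.2 * g ^ m)
      (fun m n i hmn hP => ⟨mono x i.1 m n hmn hP.1, mono y i.2 m n hmn hP.2⟩) (by
        intro m hm
        obtain ⟨s, s', hs, hs', he, h1, h2⟩ := step2 p hS hε hgen hnt hxy hx hy hX hX1 hY hY1 hm
        exact ⟨(s, s'), ⟨hs, hs', he⟩, h1, h2⟩)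
    exact ⟨u, u', hu, hu', he, fun m hm => (h m hm).1, fun m hm => (h m hm).2,
      fun v => value_eq p hu.1 (hX v) (hX0 v) fun m hm => (h m hm).1,
      fun v => value_eq p hu'.1 (hY v) (hY0 v) fun m hm => (h m hm).2⟩

end Pool.Agent.Y158.SI
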