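import Mathlib

/-!
# The product formula and `S`-integers
-/

set_option autoImplicit false
set_option linter.unusedSectionVars false

namespace Pool.Agent.Y158.SI

open NumberField IsDedekindDomain

variable {K : Type*} [Field K] [NumberField K] (S : Finset (HeightOneSpectrum (𝓞 K)))

/-- the normalised absolute value at a finite place -/
noncomputable def av (v : HeightOneSpectrum (𝓞 K)) : AbsoluteValue K ℝ :=
  NumberField.HeightOneSpectrum.adicAbv K v

lemma av_eq (v : HeightOneSpectrum (𝓞 K)) (x : K) : av v x =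
    WithZeroMulInt.toNNReal (NumberField.HeightOneSpectrum.absNorm_ne_zero v)
      (v.valuation K x) := NumberField.HeightOneSpectrum.adicAbv_def K v

lemma av_le_one {v : HeightOneSpectrum (𝓞 K)} {x : K} (h : v.valuation K x ≤ 1) : av v x ≤ 1 := by
  rw [av_eq]
  exact_mod_cast (WithZeroMulInt.toNNReal_le_one_iff
    (NumberField.HeightOneSpectrum.one_lt_absNorm_nnreal v)).2 h

lemma av_eq_one {v : HeightOneSpectrum (𝓞 K)} {x : K} (h : v.valuation K x = 1) : av v x = 1 := by
  rw [av_eq, h, map_one]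
  rfl

lemma av_eq_one_iff {v : HeightOneSpectrum (𝓞 K)} {x : K} :
    av v x = 1 ↔ v.valuation K x = 1 := by
  refine ⟨fun h => ?_, av_eq_one⟩
  rw [av_eq] at h
  have h1 := NumberField.HeightOneSpectrum.one_lt_absNorm_nnreal v
  exact (WithZeroMulInt.toNNReal_eq_one_iff _
    (NumberField.HeightOneSpectrum.absNorm_ne_zero v) h1.ne').1 (by exact_mod_cast h)

/-- the normalised absolute values at the infinite places and the places in `S` -/
noncomputable def Nt : InfinitePlace K ⊕ S → K → ℝ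
  | .inl w, x => w x ^ w.mult
  | .inr v, x => av v.1 x

variable {S}

lemma Nt_mul (t : InfinitePlace K ⊕ S) (x y : K) : Nt S t (x * y) = Nt S t x * Nt S t y := by
  rcases t with w | v
  · change w (x * y) ^ w.mult = w x ^ w.mult * w y ^ w.mult
    rw [map_mul, mul_pow]
  · exact map_mul (av v.1) x y

lemma Nt_one (t : InfinitePlace K ⊕ S) : Nt S t 1 = 1 := by
  rcases t with w | v
  · change w 1 ^ w.mult = 1
    rw [map_one, one_pow]
  · exact map_one (av v.1)

lemma Nt_neg (t : InfinitePlace K ⊕ S) (x : K) : Nt S t (-x) = Nt S t x := by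
  rcases t with w | v
  · change w.1 (-x) ^ w.mult = w.1 x ^ w.mult
    rw [w.1.map_neg]
  · exact (av v.1).map_neg x

lemma Nt_pos (t : InfinitePlace K ⊕ S) {x : K} (hx : x ≠ 0) : 0 < Nt S t x := by
  rcases t with w | v
  · exact pow_pos (InfinitePlace.pos_iff.2 hx) _
  · exact (av v.1).pos hx

lemma Nt_nonneg (t : InfinitePlace K ⊕ S) (x : K) : 0 ≤ Nt S t x := by
  rcases t with w | v
  · exact pow_nonneg (apply_nonneg w x) _
  · exact (av v.1).nonneg x

lemma Nt_pow (t : InfinitePlace K ⊕ S) (x : K) (n : ℕ) : Nt S t (x ^ n) = Nt S t x ^ n := by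
  induction n with
  | zero => rw [pow_zero, pow_zero, Nt_one]
  | succ n ih => rw [pow_succ, Nt_mul, ih, pow_succ]

lemma Nt_inv (t : InfinitePlace K ⊕ S) {x : K} (hx : x ≠ 0) : Nt S t x⁻¹ = (Nt S t x)⁻¹ := by
  apply eq_inv_of_mul_eq_one_left
  rw [← Nt_mul, inv_mul_cancel₀ hx, Nt_one]

lemma Nt_zpow (t : InfinitePlace K ⊕ S) {x : K} (hx : x ≠ 0) (n : ℤ) :
    Nt S t (x ^ n) = Nt S t x ^ n := by
  rcases n with n | n
  · change Nt S t (x ^ ((n : ℕ) : ℤ)) = Nt S t x ^ ((n : ℕ) : ℤ)
    rw [zpow_natCast, zpow_natCast, Nt_pow]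
  · rw [zpow_negSucc, zpow_negSucc, Nt_inv t (pow_ne_zero _ hx), Nt_pow]

lemma Nt_add (t : InfinitePlace K ⊕ S) (x y : K) :
    Nt S t (x + y) ≤ 4 * max (Nt S t x) (Nt S t y) := by
  rcases t with w | v
  · change w (x + y) ^ w.mult ≤ 4 * max (w x ^ w.mult) (w y ^ w.mult)
    have h0 := apply_nonneg w x
    have h0' := apply_nonneg w y
    obtain ⟨M, hM⟩ : ∃ M, M = max (w x) (w y) := ⟨_, rfl⟩
    have h1 : w (x + y) ≤ 2 * M := by
      have h2 : w (x + y) ≤ w x + w y := w.1.add_le x y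
      have h3 := le_max_left (w x) (w y)
      have h4 := le_max_right (w x) (w y)
      rw [← hM] at h3 h4
      linarith
    have hM0 : 0 ≤ M := by rw [hM]; exact h0.trans (le_max_left _ _)
    have h5 : M ^ w.mult ≤ max (w x ^ w.mult) (w y ^ w.mult) := by
      rcases max_choice (w x) (w y) with h | h
      · rw [hM, h]
        exact le_max_left _ _
      · rw [hM, h]
        exact le_max_right _ _
    have h6 : (2 : ℝ) ^ w.mult ≤ 4 := by
      unfold InfinitePlace.mult
      split_ifs <;> norm_num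
    calc w (x + y) ^ w.mult ≤ (2 * M) ^ w.mult := pow_le_pow_left₀ (apply_nonneg w _) h1 _
      _ = 2 ^ w.mult * M ^ w.mult := mul_pow _ _ _
      _ ≤ 4 * max (w x ^ w.mult) (w y ^ w.mult) :=
        mul_le_mul h6 h5 (pow_nonneg hM0 _) (by norm_num)
  · change av v.1 (x + y) ≤ 4 * max (av v.1 x) (av v.1 y)
    have h1 : av v.1 (x + y) ≤ max (av v.1 x) (av v.1 y) :=
      NumberField.HeightOneSpectrum.adicAbv_add_le_max K v.1 x y
    have h2 : 0 ≤ max (av v.1 x) (av v.1 y) := ((av v.1).nonneg x).trans (le_max_left _ _)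
    linarith

lemma prod_split [DecidableEq (HeightOneSpectrum (𝓞 K))] {x : K} (hx : x ≠ 0) :
    ∃ T : Finset (HeightOneSpectrum (𝓞 K)), (∀ v ∈ T, v ∉ S) ∧
      (∏ t, Nt S t x) * ∏ v ∈ T, av v x = 1 := by
  classical
  have h1 := prod_abs_eq_one hx
  have h2 : ∏ᶠ w : FinitePlace K, w x = ∏ᶠ v : HeightOneSpectrum (𝓞 K), av v x := by
    rw [← finprod_comp_equiv (FinitePlace.equivHeightOneSpectrum (K := K)).symm]
    refine finprod_congr fun v => ?_
    rw [FinitePlace.equivHeightOneSpectrum_symm_apply]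
    exact NumberField.FinitePlace.norm_embedding v x
  have hfin : (Function.mulSupport fun v : HeightOneSpectrum (𝓞 K) => av v x).Finite := by
    have h3 := FinitePlace.hasFiniteMulSupport hx
    refine (Set.Finite.image (FinitePlace.equivHeightOneSpectrum (K := K)) h3).subset ?_
    intro v hv
    refine ⟨(FinitePlace.equivHeightOneSpectrum (K := K)).symm v, ?_, Equiv.apply_symm_apply _ _⟩
    rw [Function.mem_mulSupport] at hv ⊢
    rw [FinitePlace.equivHeightOneSpectrum_symm_apply]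
    intro h4
    apply hv
    rw [← h4]
    exact (NumberField.FinitePlace.norm_embedding v x).symm
  have h3 : ∏ᶠ v : HeightOneSpectrum (𝓞 K), av v x = ∏ v ∈ hfin.toFinset ∪ S, av v x := by
    refine finprod_eq_prod_of_mulSupport_subset _ ?_
    intro v hv
    rw [Finset.coe_union]
    left
    exact (Set.Finite.mem_toFinset hfin).2 hv
  rw [h2, h3] at h1
  have h4 := Finset.prod_sdiff (f := fun v => av v x)
    (Finset.subset_union_right (s₁ := hfin.toFinset) (s₂ := S))
  refine ⟨(hfin.toFinset ∪ S) \ S, fun v hv => (Finset.mem_sdiff.1 hv).2, ?_⟩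
  rw [← h1, ← h4, Fintype.prod_sum_type]
  have h5 : ∏ v ∈ S, av v x = ∏ v : S, av v.1 x := (Finset.prod_coe_sort S fun v => av v x).symm
  rw [h5]
  change (∏ w : InfinitePlace K, w x ^ w.mult) * (∏ v : S, av v.1 x) * _ = _
  ring

theorem prod_ge {x : K} (hx : x ≠ 0) (h : ∀ v ∉ S, v.valuation K x ≤ 1) :
    1 ≤ ∏ t, Nt S t x := by
  classical
  obtain ⟨T, hT, h1⟩ := prod_split (S := S) hx
  have h2 : ∏ v ∈ T, av v x ≤ 1 :=
    Finset.prod_le_one (fun v _ => (av v).nonneg x) fun v hv => av_le_one (h v (hT v hv))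
  have h3 : 0 ≤ ∏ t, Nt S t x := Finset.prod_nonneg fun t _ => Nt_nonneg t x
  nlinarith

theorem prod_eq {x : K} (hx : x ≠ 0) (h : ∀ v ∉ S, v.valuation K x = 1) :
    ∏ t, Nt S t x = 1 := by
  classical
  obtain ⟨T, hT, h1⟩ := prod_split (S := S) hx
  rw [Finset.prod_eq_one fun v hv => av_eq_one (h v (hT v hv)), mul_one] at h1
  exact h1

end Pool.Agent.Y158.SI
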