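import Pool.Agent.Y158.SI.Units

/-!
# Sizes of `S`-units
-/

set_option autoImplicit false
set_option linter.unusedSectionVars false

namespace Pool.Agent.Y158.SI

open NumberField IsDedekindDomain

variable {K : Type*} [Field K] [NumberField K] {S : Finset (HeightOneSpectrum (𝓞 K))}

/-- `z` is a root of unity -/
def Tor (z : K) : Prop := ∃ m : ℕ, 0 < m ∧ z ^ m = 1

lemma Tor.ne {z : K} (h : Tor z) : z ≠ 0 := by
  obtain ⟨m, hm, h⟩ := h
  rintro rfl
  rw [zero_pow hm.ne'] at h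
  exact zero_ne_one h

lemma Nt_tor (t : InfinitePlace K ⊕ S) {z : K} (h : Tor z) : Nt S t z = 1 := by
  obtain ⟨m, hm, h⟩ := h
  have h1 := congrArg (Nt S t) h
  rw [Nt_pow, Nt_one] at h1
  exact (pow_eq_one_iff_of_nonneg (Nt_nonneg t z) hm.ne').1 h1

/-- the two places and the sizes of the fundamental unit -/
theorem two_places (hS : Fintype.card (InfinitePlace K) + S.card ≤ 2) {ε : K} (hε : IsSU S ε)
    (hnt : ¬ Tor ε) : ∃ (t0 t1 : InfinitePlace K ⊕ S) (B : ℝ), t0 ≠ t1 ∧ (∀ t, t = t0 ∨ t = t1) ∧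
      1 < B ∧ Nt S t0 ε = B ∧ Nt S t1 ε = B⁻¹ := by
  classical
  have hc : Fintype.card (InfinitePlace K ⊕ S) ≤ 2 := by
    rw [Fintype.card_sum, Fintype.card_coe]
    exact hS
  have h1 := prod_eq (S := S) hε.1 hε.2
  have hpos : ∀ t, 0 < Nt S t ε := fun t => Nt_pos t hε.1
  obtain ⟨w⟩ : Nonempty (InfinitePlace K) := inferInstance
  rcases Nat.lt_or_ge (Fintype.card (InfinitePlace K ⊕ S)) 2 with hlt | hge
  · exfalso
    apply hnt
    have hsub : Subsingleton (InfinitePlace K ⊕ S) :=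
      Fintype.card_le_one_iff_subsingleton.1 (by omega)
    refine root_of hε fun t => ?_
    rw [Fintype.prod_eq_single t fun t' h => absurd (Subsingleton.elim t' t) h] at h1
    exact h1
  · obtain ⟨a, b, hab, huniv⟩ := Finset.card_eq_two.1
      ((Finset.card_univ (α := InfinitePlace K ⊕ S)).trans (le_antisymm hc hge))
    have hall : ∀ t, t = a ∨ t = b := fun t => by
      have := Finset.mem_univ t
      rw [huniv] at this
      simpa using this
    rw [huniv, Finset.prod_pair hab] at h1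
    have hne : Nt S a ε ≠ 1 := by
      intro h
      apply hnt
      refine root_of hε fun t => ?_
      rw [h, one_mul] at h1
      rcases hall t with rfl | rfl
      · exact h
      · exact h1
    have hb : Nt S b ε = (Nt S a ε)⁻¹ := eq_inv_of_mul_eq_one_right h1
    rcases lt_or_gt_of_ne hne with h | h
    · refine ⟨b, a, (Nt S a ε)⁻¹, hab.symm, fun t => (hall t).symm, ?_, hb, ?_⟩
      · exact (one_lt_inv₀ (hpos a)).2 h
      · rw [inv_inv]
    · exact ⟨a, b, Nt S a ε, hab, hall, h, rfl, hb⟩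

/-- three numbers with sum zero -/
lemma three {t : InfinitePlace K ⊕ S} {x y z : K} (h : x + y + z = 0) {B C : ℝ} (hB : 1 < B)
    (hC : 1 ≤ C) {i j k : ℤ} (hx : B ^ i ≤ C * Nt S t x) (hy : Nt S t y ≤ C * B ^ j)
    (hz : Nt S t z ≤ C * B ^ k) {D : ℕ} (hD : 4 * C ^ 2 ≤ B ^ D) : i ≤ max j k + D := by
  have hB0 : 0 < B := by linarith
  have h1 : Nt S t x ≤ 4 * max (Nt S t y) (Nt S t z) := by
    have : x = -(y + z) := by linear_combination h
    rw [this, Nt_neg]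
    exact Nt_add t y z
  have h2 : max (Nt S t y) (Nt S t z) ≤ C * B ^ (max j k) := by
    apply max_le
    · refine hy.trans (mul_le_mul_of_nonneg_left ?_ (by linarith))
      exact zpow_le_zpow_right₀ hB.le (le_max_left _ _)
    · refine hz.trans (mul_le_mul_of_nonneg_left ?_ (by linarith))
      exact zpow_le_zpow_right₀ hB.le (le_max_right _ _)
  have h3 : B ^ i ≤ B ^ (max j k + (D : ℤ)) := by
    rw [zpow_add₀ hB0.ne', zpow_natCast]
    have h4 : 0 < B ^ (max j k) := zpow_pos hB0 _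
    calc B ^ i ≤ C * Nt S t x := hx
      _ ≤ C * (4 * (C * B ^ (max j k))) := by
        refine mul_le_mul_of_nonneg_left (h1.trans ?_) (by linarith)
        exact mul_le_mul_of_nonneg_left h2 (by norm_num)
      _ = B ^ (max j k) * (4 * C ^ 2) := by ring
      _ ≤ B ^ (max j k) * B ^ D := mul_le_mul_of_nonneg_left hD h4.le
  exact (zpow_le_zpow_iff_right₀ hB).1 h3

lemma exists_bound (f : InfinitePlace K ⊕ S → ℝ) : ∃ C : ℝ, 1 ≤ C ∧ ∀ t, f t ≤ C := by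
  classical
  refine ⟨1 + ∑ t, |f t|, ?_, fun t => ?_⟩
  · have : 0 ≤ ∑ t, |f t| := Finset.sum_nonneg fun t _ => abs_nonneg _
    linarith
  · have h1 : |f t| ≤ ∑ t, |f t| :=
      Finset.single_le_sum (f := fun t => |f t|) (fun t _ => abs_nonneg _) (Finset.mem_univ t)
    have := le_abs_self (f t)
    linarith

/-- the size of an `S`-unit -/
lemma Nt_su (t : InfinitePlace K ⊕ S) {ε u : K} (hε : ε ≠ 0) {r : ℤ} (hr : Tor (u / ε ^ r)) :
    Nt S t u = Nt S t ε ^ r := by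
  have h1 : u = u / ε ^ r * ε ^ r := by rw [div_mul_cancel₀ _ (zpow_ne_zero _ hε)]
  rw [h1, Nt_mul, Nt_tor t hr, one_mul, Nt_zpow t hε]

/-- the solutions of the unit equation have bounded exponents -/
theorem claim1 (hS : Fintype.card (InfinitePlace K) + S.card ≤ 2) {ε : K} (hε : IsSU S ε)
    (hnt : ¬ Tor ε) {α β : K} (hα : α ≠ 0) (hβ : β ≠ 0) : ∃ D : ℕ, ∀ (u u' : K) (r r' : ℤ),
      Tor (u / ε ^ r) → Tor (u' / ε ^ r') → α * u + β * u' = 1 → |r| ≤ D ∧ |r'| ≤ D := by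
  obtain ⟨t0, t1, B, -, -, hB, h0, h1⟩ := two_places hS hε hnt
  have hB0 : 0 < B := by linarith
  obtain ⟨C, hC1, hC⟩ := exists_bound (S := S) (K := K) fun t =>
    max (max (Nt S t α) (Nt S t α)⁻¹) (max (Nt S t β) (Nt S t β)⁻¹)
  obtain ⟨D, hD⟩ := pow_unbounded_of_one_lt (4 * C ^ 2) hB
  refine ⟨2 * D, fun u u' r r' hr hr' h => ?_⟩
  have hsum : α * u + β * u' + (-1) = 0 := by linear_combination h
  have b1 : ∀ t, Nt S t α ≤ C := fun t => ((le_max_left _ _).trans (le_max_left _ _)).trans (hC t)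
  have b2 : ∀ t, (Nt S t α)⁻¹ ≤ C := fun t =>
    ((le_max_right _ _).trans (le_max_left _ _)).trans (hC t)
  have b3 : ∀ t, Nt S t β ≤ C := fun t => ((le_max_left _ _).trans (le_max_right _ _)).trans (hC t)
  have b4 : ∀ t, (Nt S t β)⁻¹ ≤ C := fun t =>
    ((le_max_right _ _).trans (le_max_right _ _)).trans (hC t)
  have up : ∀ (t : InfinitePlace K ⊕ S) (γ w : K) (X : ℝ), Nt S t γ ≤ C → Nt S t w = X →
      Nt S t (γ * w) ≤ C * X := by
    intro t γ w X h1 h2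
    rw [Nt_mul, h2]
    exact mul_le_mul_of_nonneg_right h1 (by rw [← h2]; exact Nt_nonneg t w)
  have lo : ∀ (t : InfinitePlace K ⊕ S) (γ w : K) (X : ℝ), γ ≠ 0 → (Nt S t γ)⁻¹ ≤ C →
      Nt S t w = X → X ≤ C * Nt S t (γ * w) := by
    intro t γ w X hγ h1 h2
    rw [Nt_mul, h2]
    have h3 := Nt_pos t hγ
    have h4 : 0 ≤ X := by rw [← h2]; exact Nt_nonneg t w
    have h5 : 1 ≤ C * Nt S t γ := by
      have := mul_le_mul_of_nonneg_right h1 h3.le
      rwa [inv_mul_cancel₀ h3.ne'] at this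
    calc X = 1 * X := (one_mul X).symm
      _ ≤ (C * Nt S t γ) * X := mul_le_mul_of_nonneg_right h5 h4
      _ = _ := by ring
  have n1 : ∀ t : InfinitePlace K ⊕ S, Nt S t (-1 : K) = 1 := fun t => by rw [Nt_neg, Nt_one]
  have u0 : Nt S t0 u = B ^ r := by rw [Nt_su t0 hε.1 hr, h0]
  have u0' : Nt S t0 u' = B ^ r' := by rw [Nt_su t0 hε.1 hr', h0]
  have u1 : Nt S t1 u = B ^ (-r) := by rw [Nt_su t1 hε.1 hr, h1, inv_zpow, zpow_neg]
  have u1' : Nt S t1 u' = B ^ (-r') := by rw [Nt_su t1 hε.1 hr', h1, inv_zpow, zpow_neg]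
  have z0 : ∀ t : InfinitePlace K ⊕ S, Nt S t (-1 : K) ≤ C * B ^ (0 : ℤ) := fun t => by
    rw [n1, zpow_zero, mul_one]
    exact hC1
  have z1 : ∀ t : InfinitePlace K ⊕ S, B ^ (0 : ℤ) ≤ C * Nt S t (-1 : K) := fun t => by
    rw [n1, zpow_zero, mul_one]
    exact hC1
  have hs2 : β * u' + (-1) + α * u = 0 := by linear_combination h
  have hs3 : (-1) + α * u + β * u' = 0 := by linear_combination h
  have i1 := three hsum hB hC1 (lo t0 α u _ hα (b2 t0) u0) (up t0 β u' _ (b3 t0) u0') (z0 t0) hD.le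
  have i2 := three hs2 hB hC1 (lo t0 β u' _ hβ (b4 t0) u0') (z0 t0) (up t0 α u _ (b1 t0) u0) hD.le
  have i3 := three hs3 hB hC1 (z1 t0) (up t0 α u _ (b1 t0) u0) (up t0 β u' _ (b3 t0) u0') hD.le
  have j1 := three hsum hB hC1 (lo t1 α u _ hα (b2 t1) u1) (up t1 β u' _ (b3 t1) u1') (z0 t1) hD.le
  have j2 := three hs2 hB hC1 (lo t1 β u' _ hβ (b4 t1) u1') (z0 t1) (up t1 α u _ (b1 t1) u1) hD.le
  have j3 := three hs3 hB hC1 (z1 t1) (up t1 α u _ (b1 t1) u1) (up t1 β u' _ (b3 t1) u1') hD.le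
  push_cast
  rw [abs_le, abs_le]
  omega

/-- the main estimate -/
theorem claim2 (hS : Fintype.card (InfinitePlace K) + S.card ≤ 2) {ε : K} (hε : IsSU S ε)
    (hnt : ¬ Tor ε) (α β d : K) (hd : d ≠ 0) : ∃ k0 : ℕ, ∀ k : ℕ, k0 ≤ k →
      ∀ (u u' : K) (r r' : ℤ), Tor (u / ε ^ r) → Tor (u' / ε ^ r') → 4 * |r| ≤ k →
      4 * |r'| ≤ k → (∀ v ∉ S, v.valuation K (d * (α * u + β * u' - 1)) ≤
        v.valuation K (ε ^ k - 1)) → α * u + β * u' = 1 := by
  classical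
  obtain ⟨t0, t1, B, hne, hall, hB, h0, h1⟩ := two_places hS hε hnt
  have hB0 : 0 < B := by linarith
  obtain ⟨C, hC1, hC⟩ := exists_bound (S := S) (K := K) fun t =>
    max (max (Nt S t α) (Nt S t β)) (Nt S t d)
  obtain ⟨k1, hk1⟩ := pow_unbounded_of_one_lt (4 + (16 * (16 * C ^ 2) ^ 2) ^ 2) hB
  refine ⟨k1, fun k hk u u' r r' hr hr' hrk hrk' hval => ?_⟩
  by_contra hcon
  have hBk : 4 + (16 * (16 * C ^ 2) ^ 2) ^ 2 < B ^ k :=
    hk1.trans_le (pow_le_pow_right₀ hB.le hk)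
  have hε1 : ε ^ k - 1 ≠ 0 := by
    intro h
    apply hnt
    refine ⟨k, ?_, sub_eq_zero.1 h⟩
    rcases Nat.eq_zero_or_pos k with rfl | h
    · rw [pow_zero] at hBk
      have : 0 ≤ (16 * (16 * C ^ 2) ^ 2) ^ 2 := by positivity
      linarith
    · exact h
  obtain ⟨z, hz⟩ : ∃ z, z = d * (α * u + β * u' - 1) := ⟨_, rfl⟩
  have hz0 : z ≠ 0 := by
    rw [hz]
    exact mul_ne_zero hd (sub_ne_zero.2 hcon)
  rw [← hz] at hval
  have hge := prod_ge (S := S) (div_ne_zero hz0 hε1) (fun v hv => by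
    have h2 : 0 < v.valuation K (ε ^ k - 1) := by
      rw [zero_lt_iff, Valuation.ne_zero_iff]
      exact hε1
    rw [map_div₀]
    exact (div_le_one₀ h2).2 (hval v hv))
  have huniv : (Finset.univ : Finset (InfinitePlace K ⊕ S)) = {t0, t1} := by
    ext t
    simpa using hall t
  have hprod : ∀ x : K, ∏ t, Nt S t x = Nt S t0 x * Nt S t1 x := fun x => by
    rw [huniv, Finset.prod_pair hne]
  rw [hprod, div_eq_mul_inv, Nt_mul, Nt_mul, Nt_inv t0 hε1, Nt_inv t1 hε1] at hge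
  have p0 := Nt_pos t0 hε1
  have p1 := Nt_pos t1 hε1
  have hge' : Nt S t0 (ε ^ k - 1) * Nt S t1 (ε ^ k - 1) ≤ Nt S t0 z * Nt S t1 z := by
    have h2 : Nt S t0 z * (Nt S t0 (ε ^ k - 1))⁻¹ * (Nt S t1 z * (Nt S t1 (ε ^ k - 1))⁻¹) =
        (Nt S t0 z * Nt S t1 z) / (Nt S t0 (ε ^ k - 1) * Nt S t1 (ε ^ k - 1)) := by
      field_simp
    rw [h2, one_le_div (mul_pos p0 p1)] at hge
    exact hge
  -- lower bounds
  have l0 : B ^ k ≤ 4 * Nt S t0 (ε ^ k - 1) := by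
    have h2 := Nt_add t0 (ε ^ k - 1) (1 : K)
    rw [sub_add_cancel, Nt_pow, h0, Nt_one] at h2
    rcases max_choice (Nt S t0 (ε ^ k - 1)) 1 with h3 | h3
    · rwa [h3] at h2
    · rw [h3] at h2
      have : 0 ≤ (16 * (16 * C ^ 2) ^ 2) ^ 2 := by positivity
      linarith
  have l1 : 1 ≤ 4 * Nt S t1 (ε ^ k - 1) := by
    have h2 := Nt_add t1 (ε ^ k) (-(ε ^ k - 1) : K)
    have h3 : ε ^ k + -(ε ^ k - 1) = 1 := by ring
    rw [h3, Nt_one, Nt_neg, Nt_pow, h1] at h2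
    rcases max_choice ((B⁻¹) ^ k) (Nt S t1 (ε ^ k - 1)) with h4 | h4
    · rw [h4] at h2
      have h5 : 0 ≤ (16 * (16 * C ^ 2) ^ 2) ^ 2 := by positivity
      have h6 : 0 < B ^ k := pow_pos hB0 _
      rw [inv_pow] at h2
      have h7 : 1 * B ^ k ≤ 4 * (B ^ k)⁻¹ * B ^ k := mul_le_mul_of_nonneg_right h2 h6.le
      rw [mul_assoc, inv_mul_cancel₀ h6.ne'] at h7
      linarith
    · rwa [h4] at h2
  -- upper bounds
  obtain ⟨ρ, hρ⟩ : ∃ ρ : ℕ, ρ = max r.natAbs r'.natAbs := ⟨_, rfl⟩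
  have hr1 := neg_abs_le r
  have hr2 := le_abs_self r
  have hr3 := neg_abs_le r'
  have hr4 := le_abs_self r'
  have hρk : 4 * ρ ≤ k := by omega
  have hBρ : 1 ≤ B ^ ρ := one_le_pow₀ hB.le
  have key : ∀ (n : ℤ), n ≤ ρ → B ^ n ≤ B ^ ρ := by
    intro n hn
    rw [← zpow_natCast]
    exact zpow_le_zpow_right₀ hB.le hn
  have nu : ∀ (t : InfinitePlace K ⊕ S) (w : K) (s : ℤ), Tor (w / ε ^ s) → s ≤ ρ → -s ≤ ρ → Nt S t w ≤ B ^ ρ := by
    intro t w s hs h2 h3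
    rw [Nt_su t hε.1 hs]
    rcases hall t with rfl | rfl
    · rw [h0]
      exact key _ h2
    · rw [h1, inv_zpow, ← zpow_neg]
      exact key _ h3
  have up : ∀ t, Nt S t z ≤ 16 * C ^ 2 * B ^ ρ := by
    intro t
    have c1 : Nt S t α ≤ C := ((le_max_left _ _).trans (le_max_left _ _)).trans (hC t)
    have c2 : Nt S t β ≤ C := ((le_max_right _ _).trans (le_max_left _ _)).trans (hC t)
    have c3 : Nt S t d ≤ C := (le_max_right _ _).trans (hC t)
    have m1 : Nt S t u ≤ B ^ ρ := nu t u r hr (by omega) (by omega)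
    have m2 : Nt S t u' ≤ B ^ ρ := nu t u' r' hr' (by omega) (by omega)
    have hCB : 1 ≤ C * B ^ ρ := by nlinarith
    have a1 : Nt S t (α * u) ≤ C * B ^ ρ := by
      rw [Nt_mul]
      exact mul_le_mul c1 m1 (Nt_nonneg t u) (by linarith)
    have a2 : Nt S t (β * u') ≤ C * B ^ ρ := by
      rw [Nt_mul]
      exact mul_le_mul c2 m2 (Nt_nonneg t u') (by linarith)
    have a3 : Nt S t (α * u + β * u') ≤ 4 * (C * B ^ ρ) :=
      (Nt_add t _ _).trans (mul_le_mul_of_nonneg_left (max_le a1 a2) (by norm_num))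
    have a4 : Nt S t (α * u + β * u' - 1) ≤ 16 * (C * B ^ ρ) := by
      rw [sub_eq_add_neg]
      refine (Nt_add t _ _).trans ?_
      rw [Nt_neg, Nt_one]
      have : max (Nt S t (α * u + β * u')) 1 ≤ 4 * (C * B ^ ρ) := max_le a3 (by linarith)
      linarith
    rw [hz, Nt_mul]
    calc Nt S t d * Nt S t (α * u + β * u' - 1) ≤ C * (16 * (C * B ^ ρ)) :=
          mul_le_mul c3 a4 (Nt_nonneg t _) (by linarith)
      _ = _ := by ring
  have hA : 0 ≤ 16 * C ^ 2 * B ^ ρ := by positivity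
  have e1 : B ^ k ≤ 16 * (16 * C ^ 2) ^ 2 * (B ^ ρ) ^ 2 := by
    have h2 : B ^ k * 1 ≤ 4 * Nt S t0 (ε ^ k - 1) * (4 * Nt S t1 (ε ^ k - 1)) :=
      mul_le_mul l0 l1 zero_le_one (by linarith)
    have h3 : Nt S t0 z * Nt S t1 z ≤ 16 * C ^ 2 * B ^ ρ * (16 * C ^ 2 * B ^ ρ) :=
      mul_le_mul (up t0) (up t1) (Nt_nonneg t1 z) hA
    nlinarith
  have e2 : (B ^ ρ) ^ 4 ≤ B ^ k := by
    rw [← pow_mul]
    exact pow_le_pow_right₀ hB.le (by omega)
  have hk0 : 0 < B ^ k := pow_pos hB0 _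
  have e3 : (B ^ k) ^ 2 ≤ (16 * (16 * C ^ 2) ^ 2) ^ 2 * B ^ k := by
    calc (B ^ k) ^ 2 ≤ (16 * (16 * C ^ 2) ^ 2 * (B ^ ρ) ^ 2) ^ 2 :=
          pow_le_pow_left₀ hk0.le e1 2
      _ = (16 * (16 * C ^ 2) ^ 2) ^ 2 * (B ^ ρ) ^ 4 := by ring
      _ ≤ _ := mul_le_mul_of_nonneg_left e2 (by positivity)
  have e4 : B ^ k ≤ (16 * (16 * C ^ 2) ^ 2) ^ 2 := by
    rw [sq (B ^ k)] at e3
    exact le_of_mul_le_mul_right e3 hk0
  linarith

end Pool.Agent.Y158.SI
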