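import Pool.Agent.Y158.SI.Prod
import Pool.Agent.Y158.KL.Cls

/-!
# Groups of `S`-units of rank at most one
-/

set_option autoImplicit false
set_option linter.unusedSectionVars false

namespace Pool.Agent.Y158.SI

open NumberField IsDedekindDomain WithZero

variable {K : Type*} [Field K] [NumberField K] (S : Finset (HeightOneSpectrum (𝓞 K)))

/-- `S`-units -/
def IsSU (u : K) : Prop := u ≠ 0 ∧ ∀ v ∉ S, v.valuation K u = 1

variable {S}

lemma IsSU.mul {u w : K} (hu : IsSU S u) (hw : IsSU S w) : IsSU S (u * w) :=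
  ⟨mul_ne_zero hu.1 hw.1, fun v hv => by rw [map_mul, hu.2 v hv, hw.2 v hv, one_mul]⟩

lemma IsSU.inv {u : K} (hu : IsSU S u) : IsSU S u⁻¹ :=
  ⟨inv_ne_zero hu.1, fun v hv => by rw [map_inv₀, hu.2 v hv, inv_one]⟩

lemma IsSU.zpow {u : K} (hu : IsSU S u) (n : ℤ) : IsSU S (u ^ n) :=
  ⟨zpow_ne_zero _ hu.1, fun v hv => by rw [map_zpow₀, hu.2 v hv, one_zpow]⟩

lemma IsSU.div {u w : K} (hu : IsSU S u) (hw : IsSU S w) : IsSU S (u / w) := by
  rw [div_eq_mul_inv]
  exact hu.mul hw.inv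

lemma isSU_one : IsSU S (1 : K) := ⟨one_ne_zero, fun _ _ => map_one _⟩

/-- all valuations trivial: a unit of the ring of integers -/
lemma exists_unit {u : K} (h0 : u ≠ 0) (h : ∀ v : HeightOneSpectrum (𝓞 K), v.valuation K u = 1) :
    ∃ e : (𝓞 K)ˣ, algebraMap (𝓞 K) K e = u := by
  obtain ⟨a, ha⟩ := HeightOneSpectrum.mem_integers_of_valuation_le_one (R := 𝓞 K) K u
    (fun v => (h v).le)
  obtain ⟨b, hb⟩ := HeightOneSpectrum.mem_integers_of_valuation_le_one (R := 𝓞 K) K u⁻¹
    (fun v => by rw [map_inv₀, h v, inv_one])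
  have hab : a * b = 1 := by
    apply FaithfulSMul.algebraMap_injective (𝓞 K) K
    rw [map_mul, ha, hb, map_one, mul_inv_cancel₀ h0]
  exact ⟨⟨a, b, hab, by rw [mul_comm]; exact hab⟩, ha⟩

lemma val_of_unit (e : (𝓞 K)ˣ) (v : HeightOneSpectrum (𝓞 K)) :
    v.valuation K (algebraMap (𝓞 K) K e) = 1 := by
  apply le_antisymm (v.valuation_le_one _)
  have h := v.valuation_le_one (K := K) ((e⁻¹ : (𝓞 K)ˣ) : 𝓞 K)
  have h1 : v.valuation K (algebraMap (𝓞 K) K e) *
      v.valuation K (algebraMap (𝓞 K) K ((e⁻¹ : (𝓞 K)ˣ) : 𝓞 K)) = 1 := by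
    rw [← map_mul, ← map_mul, Units.mul_inv, map_one, map_one]
  calc (1 : WithZero (Multiplicative ℤ)) = _ := h1.symm
    _ ≤ v.valuation K (algebraMap (𝓞 K) K e) * 1 := by gcongr
    _ = _ := mul_one _

/-- Kronecker's theorem for `S`-units -/
theorem root_of {u : K} (hu : IsSU S u) (h : ∀ t, Nt S t u = 1) : ∃ m : ℕ, 0 < m ∧ u ^ m = 1 := by
  have h1 : ∀ v : HeightOneSpectrum (𝓞 K), v.valuation K u = 1 := by
    intro v
    by_cases hv : v ∈ S
    · exact av_eq_one_iff.1 (h (.inr ⟨v, hv⟩))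
    · exact hu.2 v hv
  obtain ⟨e, he⟩ := exists_unit hu.1 h1
  have hint : IsIntegral ℤ u := by
    rw [← he]
    exact RingOfIntegers.isIntegral_coe _
  obtain ⟨n, hn, h2⟩ := Embeddings.pow_eq_one_of_norm_eq_one K ℂ hint (fun φ => by
    have h3 : (InfinitePlace.mk φ) u ^ (InfinitePlace.mk φ).mult = 1 := h (.inl (InfinitePlace.mk φ))
    rw [pow_eq_one_iff_of_nonneg (apply_nonneg _ _) InfinitePlace.mult_ne_zero] at h3
    rwa [InfinitePlace.apply] at h3)
  exact ⟨n, hn, h2⟩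

lemma wz_pow_eq_one {x : WithZero (Multiplicative ℤ)} {m : ℕ} (hm : 0 < m) (h : x ^ m = 1) :
    x = 1 := by
  have hx : x ≠ 0 := by
    rintro rfl
    rw [zero_pow hm.ne'] at h
    exact zero_ne_one h
  obtain ⟨a, rfl⟩ := Pool.Agent.Y158.KL.exists_exp hx
  rw [Pool.Agent.Y158.KL.exp_pow, ← exp_zero, exp_inj] at h
  have : a = 0 := (mul_eq_zero.1 h).resolve_left (by exact_mod_cast hm.ne')
  rw [this, exp_zero]

variable (K) in
/-- the order of the group of roots of unity -/
theorem exists_order : ∃ w : ℕ, 0 < w ∧ ∀ z : K, (∃ m : ℕ, 0 < m ∧ z ^ m = 1) → z ^ w = 1 := by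
  refine ⟨Nat.card (Units.torsion K), Nat.card_pos, ?_⟩
  rintro z ⟨m, hm, hz⟩
  have hz0 : z ≠ 0 := by
    rintro rfl
    rw [zero_pow hm.ne'] at hz
    exact zero_ne_one hz
  obtain ⟨e, he⟩ := exists_unit hz0 (fun v => by
    have h1 := congrArg (v.valuation K) hz
    rw [map_pow, map_one] at h1
    exact wz_pow_eq_one hm h1)
  have h2 : e ∈ Units.torsion K := by
    refine (CommGroup.mem_torsion e).2 (isOfFinOrder_iff_pow_eq_one.2 ⟨m, hm, ?_⟩)
    apply Units.ext
    apply FaithfulSMul.algebraMap_injective (𝓞 K) K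
    rw [Units.val_pow_eq_pow_val, map_pow, he, hz, Units.val_one, map_one]
  have h3 : (⟨e, h2⟩ : Units.torsion K) ^ Nat.card (Units.torsion K) = 1 := pow_card_eq_one'
  have h4 := congrArg (fun x : Units.torsion K => algebraMap (𝓞 K) K ((x : (𝓞 K)ˣ) : 𝓞 K)) h3
  simp only [SubmonoidClass.mk_pow, Units.val_pow_eq_pow_val, map_pow, he] at h4
  rw [h4]
  exact map_one _

/-- **The structure of the group of `S`-units** if its rank is at most one. -/
theorem units_struct (hS : Fintype.card (InfinitePlace K) + S.card ≤ 2) :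
    ∃ ε : K, IsSU S ε ∧ ∀ u, IsSU S u → ∃ n : ℤ, ∃ m : ℕ, 0 < m ∧ (u / ε ^ n) ^ m = 1 := by
  classical
  have hcard : 0 < Fintype.card (InfinitePlace K) := Fintype.card_pos
  have htor : ∀ z : (𝓞 K)ˣ, z ∈ Units.torsion K → ∃ m : ℕ, 0 < m ∧
      (algebraMap (𝓞 K) K z) ^ m = 1 := by
    intro z hz
    obtain ⟨m, hm, h⟩ := isOfFinOrder_iff_pow_eq_one.1 ((CommGroup.mem_torsion z).1 hz)
    refine ⟨m, hm, ?_⟩
    rw [← map_pow, ← Units.val_pow_eq_pow_val, h, Units.val_one, map_one]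
  have hrank : Units.rank K = Fintype.card (InfinitePlace K) - 1 := rfl
  rcases Nat.eq_zero_or_pos S.card with h0 | h0
  · rw [Finset.card_eq_zero] at h0
    subst h0
    rcases Nat.lt_or_ge (Units.rank K) 1 with hr | hr
    · refine ⟨1, isSU_one, fun u hu => ⟨0, ?_⟩⟩
      obtain ⟨e, he⟩ := exists_unit hu.1 (fun v => hu.2 v (Finset.notMem_empty v))
      obtain ⟨⟨z, f⟩, hzf, -⟩ := Units.exist_unique_eq_mul_prod K e
      have : IsEmpty (Fin (Units.rank K)) := by
        have : Units.rank K = 0 := by omega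
        rw [this]
        infer_instance
      rw [Fintype.prod_empty, mul_one] at hzf
      obtain ⟨m, hm, h⟩ := htor z z.2
      refine ⟨m, hm, ?_⟩
      rw [zpow_zero, div_one, ← he, hzf, h]
    · have hr1 : Units.rank K = 1 := by omega
      let i0 : Fin (Units.rank K) := ⟨0, by omega⟩
      have huniq : ∀ i : Fin (Units.rank K), i = i0 := by
        intro i
        apply Fin.ext
        have := i.2
        change i.1 = 0
        omega
      refine ⟨algebraMap (𝓞 K) K (Units.fundSystem K i0), ⟨?_, fun v _ => val_of_unit _ v⟩,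
        fun u hu => ?_⟩
      · exact (map_ne_zero_iff _ (FaithfulSMul.algebraMap_injective (𝓞 K) K)).2 (Units.ne_zero _)
      · obtain ⟨e, he⟩ := exists_unit hu.1 (fun v => hu.2 v (Finset.notMem_empty v))
        obtain ⟨⟨z, f⟩, hzf, -⟩ := Units.exist_unique_eq_mul_prod K e
        have hprod : ∏ i, Units.fundSystem K i ^ f i = Units.fundSystem K i0 ^ f i0 :=
          Fintype.prod_eq_single i0 fun i hi => absurd (huniq i) hi
        rw [hprod] at hzf
        obtain ⟨m, hm, h⟩ := htor z z.2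
        refine ⟨f i0, m, hm, ?_⟩
        have h1 : algebraMap (𝓞 K) K (Units.fundSystem K i0) ≠ 0 :=
          (map_ne_zero_iff _ (FaithfulSMul.algebraMap_injective (𝓞 K) K)).2 (Units.ne_zero _)
        have h2 : algebraMap (𝓞 K) K ((Units.fundSystem K i0 ^ f i0 : (𝓞 K)ˣ) : 𝓞 K) =
            algebraMap (𝓞 K) K (Units.fundSystem K i0) ^ f i0 := by
          have := map_zpow (Units.map (algebraMap (𝓞 K) K : 𝓞 K →* K)) (Units.fundSystem K i0)
            (f i0)
          have h3 := congrArg Units.val this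
          rw [Units.val_zpow_eq_zpow_val] at h3
          exact h3
        rw [← he, hzf, Units.val_mul, map_mul, h2, mul_div_assoc, div_self (zpow_ne_zero _ h1),
          mul_one, h]
  · have hc1 : Fintype.card (InfinitePlace K) = 1 := by omega
    have hS1 : S.card = 1 := by omega
    obtain ⟨v0, rfl⟩ := Finset.card_eq_one.1 hS1
    have hr : Units.rank K = 0 := by rw [hrank, hc1]
    let H : AddSubgroup ℤ :=
      { carrier := {n | ∃ u : K, IsSU {v0} u ∧ v0.valuation K u = exp n}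
        zero_mem' := ⟨1, isSU_one, by rw [map_one, exp_zero]⟩
        add_mem' := by
          rintro a b ⟨u, hu, h1⟩ ⟨w, hw, h2⟩
          exact ⟨u * w, hu.mul hw, by rw [map_mul, h1, h2, exp_add]⟩
        neg_mem' := by
          rintro a ⟨u, hu, h1⟩
          exact ⟨u⁻¹, hu.inv, by rw [map_inv₀, h1, exp_neg]⟩ }
    obtain ⟨g, hg⟩ := Int.subgroup_cyclic H
    have hgH : g ∈ H := by
      rw [hg]
      exact AddSubgroup.mem_closure_singleton_self g
    obtain ⟨ε, hε, hεg⟩ := hgH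
    refine ⟨ε, hε, fun u hu => ?_⟩
    obtain ⟨a, ha⟩ : ∃ a : ℤ, v0.valuation K u = exp a :=
      ⟨log (v0.valuation K u), (exp_log ((Valuation.ne_zero_iff _).2 hu.1)).symm⟩
    have haH : a ∈ H := ⟨u, hu, ha⟩
    rw [hg, AddSubgroup.mem_closure_singleton] at haH
    obtain ⟨n, hn⟩ := haH
    refine ⟨n, ?_⟩
    have hv : ∀ v : HeightOneSpectrum (𝓞 K), v.valuation K (u / ε ^ n) = 1 := by
      intro v
      by_cases h : v = v0
      · subst h
        rw [map_div₀, map_zpow₀, hεg, ha, ← hn, ← exp_zsmul, div_self exp_ne_zero]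
      · exact (hu.div (hε.zpow n)).2 v (by rwa [Finset.mem_singleton])
    obtain ⟨e, he⟩ := exists_unit (hu.div (hε.zpow n)).1 hv
    obtain ⟨⟨z, f⟩, hzf, -⟩ := Units.exist_unique_eq_mul_prod K e
    have : IsEmpty (Fin (Units.rank K)) := by
      rw [hr]
      infer_instance
    rw [Fintype.prod_empty, mul_one] at hzf
    obtain ⟨m, hm, h⟩ := htor z z.2
    refine ⟨m, hm, ?_⟩
    rw [← he, hzf, h]

end Pool.Agent.Y158.SI
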